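import Mathlib

set_option autoImplicit false

/-! Functions with vanishing sums on cosets of subgroups of prime order; the obstruction for three odd primes. -/

namespace Pool.Agent.Lib.MP_c80912_nt

open Finset

/-- The sums of `f` over the cosets of the subgroups of prime order of `ℤ / k` vanish. -/
def Rel (k : ℕ) (f : ℕ → ℝ) : Prop :=
  ∀ p : ℕ, p.Prime → p ∣ k → ∀ m : ℕ, ∑ i ∈ range p, f (m + i * (k / p)) = 0

theorem Rel.periodic {k : ℕ} {f : ℕ → ℝ} (hk : 2 ≤ k) (h : Rel k f) : Function.Periodic f k := by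
  intro m
  obtain ⟨p, hp, hpk⟩ := Nat.exists_prime_and_dvd (n := k) (by omega)
  have h1 := h p hp hpk m
  have h2 := h p hp hpk (m + k / p)
  have h3 := Finset.sum_range_succ (fun i => f (m + i * (k / p))) p
  have h4 := Finset.sum_range_succ' (fun i => f (m + i * (k / p))) p
  have h5 : ∑ i ∈ range p, f (m + (i + 1) * (k / p)) = ∑ i ∈ range p, f (m + k / p + i * (k / p)) :=
    Finset.sum_congr rfl fun i _ => by congr 1; ring
  rw [h5, h2, zero_mul, add_zero] at h4
  rw [h1, Nat.mul_div_cancel' hpk] at h3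
  linarith

theorem sum_shift (p m : ℕ) (φ : ℕ → ℝ) :
    ∑ i ∈ range p, φ ((m + i) % p) = ∑ i ∈ range p, φ i := by
  induction m with
  | zero =>
    refine Finset.sum_congr rfl fun i hi => ?_
    rw [zero_add, Nat.mod_eq_of_lt (Finset.mem_range.mp hi)]
  | succ m ih =>
    have h3 := Finset.sum_range_succ (fun i => φ ((m + i) % p)) p
    have h4 := Finset.sum_range_succ' (fun i => φ ((m + i) % p)) p
    have h5 : ∑ i ∈ range p, φ ((m + (i + 1)) % p) = ∑ i ∈ range p, φ ((m + 1 + i) % p) :=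
      Finset.sum_congr rfl fun i _ => by congr 2; ring
    rw [h5, add_zero] at h4
    rw [Nat.add_mod_right] at h3
    linarith

/-- A point of the cube section whose face of tight constraints contains no integral point. -/
def Bad (k : ℕ) : Prop :=
  ∃ f : ℕ → ℝ, Rel k f ∧ (∀ n, |f n| ≤ 1) ∧
    ∀ g : ℕ → ℝ, Rel k g → (∀ n, ∃ z : ℤ, g n = z) → ∃ n, f n = 1 ∧ g n ≠ 1

theorem rel_restrict {k l : ℕ} {g : ℕ → ℝ} (h : Rel (l * k) g) : Rel k fun n => g (l * n) := by
  intro p hp hpk m
  have h1 := h p hp (Dvd.dvd.mul_left hpk l) (l * m)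
  rw [Nat.mul_div_assoc l hpk] at h1
  refine Eq.trans (Finset.sum_congr rfl fun i _ => ?_) h1
  show g (l * (m + i * (k / p))) = g (l * m + i * (l * (k / p)))
  congr 1; ring

theorem Bad.mul_prime {k l : ℕ} (hk : 2 ≤ k) (hl : l.Prime) (h : Bad k) : Bad (l * k) := by
  obtain ⟨f, hf, hb, ho⟩ := h
  have hl0 : 0 < l := hl.pos
  have key : ∀ f' : ℕ → ℝ, Rel (l * k) f' → (∀ n, |f' n| ≤ 1) → (∀ n, f' (l * n) = f n) →
      Bad (l * k) := by
    intro f' h1 h2 h3
    refine ⟨f', h1, h2, fun g hg hz => ?_⟩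
    obtain ⟨n, hn1, hn2⟩ := ho (fun n => g (l * n)) (rel_restrict hg) fun n => hz _
    exact ⟨l * n, by rw [h3, hn1], hn2⟩
  by_cases hlk : l ∣ k
  · refine key (fun n => if l ∣ n then f (n / l) else 0) ?_ ?_ ?_
    · intro p hp hpk m
      have hpk' : p ∣ k := by
        rcases (Nat.Prime.dvd_mul hp).mp hpk with h | h
        · rw [(Nat.prime_dvd_prime_iff_eq hp hl).mp h]; exact hlk
        · exact h
      rw [Nat.mul_div_assoc l hpk']
      by_cases hm : l ∣ m
      · obtain ⟨m', rfl⟩ := hm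
        refine Eq.trans (Finset.sum_congr rfl fun i _ => ?_) (hf p hp hpk' m')
        have h1 : l * m' + i * (l * (k / p)) = l * (m' + i * (k / p)) := by ring
        beta_reduce
        rw [h1, if_pos (Dvd.intro _ rfl), Nat.mul_div_cancel_left _ hl0]
      · refine Finset.sum_eq_zero fun i _ => ?_
        beta_reduce
        rw [if_neg]
        intro h1
        exact hm ((Nat.dvd_add_left (Dvd.dvd.mul_left (Dvd.intro _ rfl) i)).mp h1)
    · intro n
      show |if l ∣ n then f (n / l) else 0| ≤ 1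
      split_ifs
      · exact hb _
      · simp
    · intro n
      show (if l ∣ l * n then f (l * n / l) else 0) = f n
      rw [if_pos (Dvd.intro _ rfl), Nat.mul_div_cancel_left _ hl0]
  · have hcop : Nat.Coprime l k := (Nat.Prime.coprime_iff_not_dvd hl).mpr hlk
    obtain ⟨u, -, hu⟩ := Nat.exists_mul_mod_eq_one_of_coprime hcop (by omega)
    obtain ⟨v, -, hv⟩ := Nat.exists_mul_mod_eq_one_of_coprime hcop.symm hl.one_lt
    have hper := hf.periodic hk
    have hfu : ∀ x y : ℕ, f (x + l * u * y) = f (x + y) := by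
      intro x y
      rw [← hper.map_mod_nat (x + l * u * y), ← hper.map_mod_nat (x + y)]
      congr 1
      have h1 : l * u * y % k = y % k := by rw [Nat.mul_mod, hu, one_mul, Nat.mod_mod]
      rw [Nat.add_mod, h1, ← Nat.add_mod]
    set h : ℕ → ℝ := fun j => if j = 0 then 1 else if j = 1 then -1 else 0 with hh
    have hsum : ∑ j ∈ range l, h j = 0 := by
      obtain ⟨l', rfl⟩ : ∃ l', l = l' + 2 := ⟨l - 2, by have := hl.two_le; omega⟩
      rw [Finset.sum_range_succ', Finset.sum_range_succ']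
      simp [hh]
    refine key (fun n => f (u * n) * h (v * n % l)) ?_ ?_ ?_
    · intro p hp hpk m
      rcases (Nat.Prime.dvd_mul hp).mp hpk with h1 | h1
      · have h2 : p = l := (Nat.prime_dvd_prime_iff_eq hp hl).mp h1
        subst h2
        rw [Nat.mul_div_cancel_left _ hl0]
        have h3 : ∀ i : ℕ, f (u * (m + i * k)) * h (v * (m + i * k) % p) =
            f (u * m) * h ((v * m + i) % p) := by
          intro i
          have h4 : f (u * (m + i * k)) = f (u * m) := by
            rw [← hper.map_mod_nat (u * (m + i * k)), ← hper.map_mod_nat (u * m)]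
            congr 1
            have : u * (m + i * k) = u * m + k * (u * i) := by ring
            rw [this, Nat.add_mul_mod_self_left]
          have h5 : v * (m + i * k) % p = (v * m + i) % p := by
            have h6 : v * (m + i * k) = v * m + k * v * i := by ring
            have h7 : k * v * i % p = i % p := by rw [Nat.mul_mod, hv, one_mul, Nat.mod_mod]
            rw [h6, Nat.add_mod, h7, ← Nat.add_mod]
          rw [h4, h5]
        simp only [h3]
        rw [← Finset.mul_sum, sum_shift, hsum, mul_zero]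
      · rw [Nat.mul_div_assoc l h1]
        have h3 : ∀ i : ℕ, f (u * (m + i * (l * (k / p)))) * h (v * (m + i * (l * (k / p))) % l) =
            f (u * m + i * (k / p)) * h (v * m % l) := by
          intro i
          have h4 : u * (m + i * (l * (k / p))) = u * m + l * u * (i * (k / p)) := by ring
          have h5 : v * (m + i * (l * (k / p))) = v * m + l * (v * i * (k / p)) := by ring
          rw [h4, hfu, h5, Nat.add_mul_mod_self_left]
        simp only [h3]
        rw [← Finset.sum_mul, hf p hp h1, zero_mul]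
    · intro n
      show |f (u * n) * h (v * n % l)| ≤ 1
      rw [abs_mul]
      refine mul_le_one₀ (hb _) (abs_nonneg _) ?_
      simp only [hh]
      split_ifs <;> simp
    · intro n
      show f (u * (l * n)) * h (v * (l * n) % l) = f n
      have h4 : u * (l * n) = 0 + l * u * n := by ring
      have h5 : v * (l * n) = l * (v * n) := by ring
      rw [h4, hfu, h5, Nat.mul_mod_right, zero_add]
      simp [hh]

theorem Bad.of_dvd {k t : ℕ} (hk : 2 ≤ k) (h : Bad k) (ht : t ≠ 0) : Bad (t * k) := by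
  induction t using induction_on_primes with
  | zero => exact absurd rfl ht
  | one => rwa [one_mul]
  | prime_mul p a hp ih =>
    have ha : a ≠ 0 := fun h0 => ht (by rw [h0, mul_zero])
    rw [mul_assoc]
    refine (ih ha).mul_prime ?_ hp
    calc 2 ≤ 1 * k := by omega
      _ ≤ a * k := Nat.mul_le_mul_right k (Nat.one_le_iff_ne_zero.mpr ha)

/-- The block of an index in `[0, 2a]`: `{0}`, `[1, a]`, `[a + 1, 2a]`. -/
def cl (a n : ℕ) : Fin 3 := if n = 0 then 0 else if n ≤ a then 1 else 2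

theorem cl_zero (a : ℕ) : cl a 0 = 0 := by simp [cl]

theorem cl_one {a i : ℕ} (h : i < a) : cl a (i + 1) = 1 := by
  unfold cl; rw [if_neg (by omega), if_pos (by omega)]

theorem cl_two (a i : ℕ) : cl a (i + 1 + a) = 2 := by
  unfold cl; rw [if_neg (by omega), if_neg (by omega)]

theorem sum_split (a : ℕ) (H : ℕ → ℝ) :
    ∑ x ∈ range (2 * a + 1), H x =
      H 0 + ∑ i ∈ range a, H (i + 1) + ∑ i ∈ range a, H (i + 1 + a) := by
  rw [Finset.sum_range_succ', two_mul, Finset.sum_range_add]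
  have h : ∑ i ∈ range a, H (a + i + 1) = ∑ i ∈ range a, H (i + 1 + a) :=
    Finset.sum_congr rfl fun i _ => by congr 1; ring
  rw [h]; ring

theorem sum_cl (a : ℕ) (φ : Fin 3 → ℝ) :
    ∑ x ∈ range (2 * a + 1), φ (cl a x) = φ 0 + a * φ 1 + a * φ 2 := by
  have h1 : ∑ i ∈ range a, φ (cl a (i + 1)) = ∑ i ∈ range a, φ 1 :=
    Finset.sum_congr rfl fun i hi => by rw [cl_one (Finset.mem_range.mp hi)]
  have h2 : ∑ i ∈ range a, φ (cl a (i + 1 + a)) = ∑ i ∈ range a, φ 2 :=
    Finset.sum_congr rfl fun i _ => by rw [cl_two]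
  rw [sum_split a fun x => φ (cl a x), cl_zero, h1, h2]
  simp

theorem slice (a b : ℕ) (H : ℕ → ℕ → ℝ) (hx : ∀ y, ∑ x ∈ range (2 * a + 1), H x y = 0)
    (hy : ∀ x, ∑ y ∈ range (2 * b + 1), H x y = 0)
    (h11 : ∀ i < a, ∀ j < b, H (i + 1) (j + 1) = 1)
    (h22 : ∀ i < a, ∀ j < b, H (i + 1 + a) (j + 1 + b) = 1) :
    ∑ i ∈ range a, H (i + 1) 0 = ∑ j ∈ range b, H 0 (j + 1 + b) ∧
      ∑ i ∈ range a, H (i + 1 + a) 0 = ∑ j ∈ range b, H 0 (j + 1) := by
  have s1 : ∀ i ∈ range a, ∑ j ∈ range b, H (i + 1) (j + 1) = b := fun i hi => by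
    rw [Finset.sum_congr rfl fun j hj =>
      h11 i (Finset.mem_range.mp hi) j (Finset.mem_range.mp hj)]
    simp
  have s2 : ∀ i ∈ range a, ∑ j ∈ range b, H (i + 1 + a) (j + 1 + b) = b := fun i hi => by
    rw [Finset.sum_congr rfl fun j hj =>
      h22 i (Finset.mem_range.mp hi) j (Finset.mem_range.mp hj)]
    simp
  have s3 : ∀ j ∈ range b, ∑ i ∈ range a, H (i + 1) (j + 1) = a := fun j hj => by
    rw [Finset.sum_congr rfl fun i hi =>
      h11 i (Finset.mem_range.mp hi) j (Finset.mem_range.mp hj)]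
    simp
  have s4 : ∀ j ∈ range b, ∑ i ∈ range a, H (i + 1 + a) (j + 1 + b) = a := fun j hj => by
    rw [Finset.sum_congr rfl fun i hi =>
      h22 i (Finset.mem_range.mp hi) j (Finset.mem_range.mp hj)]
    simp
  have r1 : ∀ i ∈ range a, H (i + 1) 0 = -b - ∑ j ∈ range b, H (i + 1) (j + 1 + b) := fun i hi => by
    have h := hy (i + 1)
    rw [sum_split b (H (i + 1)), s1 i hi] at h
    linarith
  have r2 : ∀ i ∈ range a, H (i + 1 + a) 0 = -b - ∑ j ∈ range b, H (i + 1 + a) (j + 1) :=
    fun i hi => by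
    have h := hy (i + 1 + a)
    rw [sum_split b (H (i + 1 + a)), s2 i hi] at h
    linarith
  have r3 : ∀ j ∈ range b, H 0 (j + 1) = -a - ∑ i ∈ range a, H (i + 1 + a) (j + 1) := fun j hj => by
    have h := hx (j + 1)
    rw [sum_split a fun x => H x (j + 1), s3 j hj] at h
    linarith
  have r4 : ∀ j ∈ range b, H 0 (j + 1 + b) = -a - ∑ i ∈ range a, H (i + 1) (j + 1 + b) :=
    fun j hj => by
    have h := hx (j + 1 + b)
    rw [sum_split a fun x => H x (j + 1 + b), s4 j hj] at h
    linarith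
  constructor
  · rw [Finset.sum_congr rfl r1, Finset.sum_congr rfl r4, Finset.sum_sub_distrib,
      Finset.sum_sub_distrib, Finset.sum_comm (s := range a)]
    simp [mul_comm]
  · rw [Finset.sum_congr rfl r2, Finset.sum_congr rfl r3, Finset.sum_sub_distrib,
      Finset.sum_sub_distrib, Finset.sum_comm (s := range a)]
    simp [mul_comm]

/-- The values on the blocks. -/
noncomputable def tab (A B C : ℝ) : Fin 3 → Fin 3 → Fin 3 → ℝ :=
  ![![![1, -C / 2, -C / 2], ![-B / 2, 1, -1 + B * C / 2], ![-B / 2, -1 + B * C / 2, 1]],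
    ![![-A / 2, 1, -1 + A * C / 2],
      ![1, (-A - B - C + A * B * C / 2) / 2, (A + B - C - A * B * C / 2) / 2],
      ![-1 + A * B / 2, (A - B + C - A * B * C / 2) / 2, (-A + B + C - A * B * C / 2) / 2]],
    ![![-A / 2, -1 + A * C / 2, 1],
      ![-1 + A * B / 2, (-A + B + C - A * B * C / 2) / 2, (A - B + C - A * B * C / 2) / 2],
      ![1, (A + B - C - A * B * C / 2) / 2, (-A - B - C + A * B * C / 2) / 2]]]

theorem tab_x (A B C : ℝ) (j l : Fin 3) :
    A * tab A B C 0 j l + tab A B C 1 j l + tab A B C 2 j l = 0 := by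
  fin_cases j <;> fin_cases l <;> simp [tab] <;> ring

theorem tab_y (A B C : ℝ) (i l : Fin 3) :
    B * tab A B C i 0 l + tab A B C i 1 l + tab A B C i 2 l = 0 := by
  fin_cases i <;> fin_cases l <;> simp [tab] <;> ring

theorem tab_z (A B C : ℝ) (i j : Fin 3) :
    C * tab A B C i j 0 + tab A B C i j 1 + tab A B C i j 2 = 0 := by
  fin_cases i <;> fin_cases j <;> simp [tab] <;> ring

theorem tab_abs {A B C : ℝ} (hA : 0 ≤ A) (hB : 0 ≤ B) (hC : 0 ≤ C) (hA1 : A ≤ 1) (hB1 : B ≤ 1)
    (hC1 : C ≤ 1) (hs : A + B + C ≤ 2) (i j l : Fin 3) : |tab A B C i j l| ≤ 1 := by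
  have h1 : 0 ≤ A * B := mul_nonneg hA hB
  have h2 : 0 ≤ A * C := mul_nonneg hA hC
  have h3 : 0 ≤ B * C := mul_nonneg hB hC
  have h4 : A * B ≤ 1 := mul_le_one₀ hA1 hB hB1
  have h5 : A * C ≤ 1 := mul_le_one₀ hA1 hC hC1
  have h6 : B * C ≤ 1 := mul_le_one₀ hB1 hC hC1
  have h7 : 0 ≤ A * B * C := mul_nonneg h1 hC
  have h8 : A * B * C ≤ 1 := mul_le_one₀ h4 hC hC1
  rw [abs_le]
  fin_cases i <;> fin_cases j <;> fin_cases l <;> simp only [tab] <;> constructor <;>
    simp <;> linarith

theorem coord_eq {p u w : ℕ} (hu : w * u % p = 1) (m i : ℕ) :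
    u * (m + i * w) % p = (u * m + i) % p := by
  have h6 : u * (m + i * w) = u * m + w * u * i := by ring
  have h7 : w * u * i % p = i % p := by rw [Nat.mul_mod, hu, one_mul, Nat.mod_mod]
  rw [h6, Nat.add_mod, h7, ← Nat.add_mod]

theorem coord_fix {p u w : ℕ} (hw : p ∣ w) (m i : ℕ) : u * (m + i * w) % p = u * m % p := by
  obtain ⟨t, rfl⟩ := hw
  have h : u * (m + i * (p * t)) = u * m + p * (u * i * t) := by ring
  rw [h, Nat.add_mul_mod_self_left]

theorem bad_base {a b c : ℕ} (hp : (2 * a + 1).Prime) (hq : (2 * b + 1).Prime)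
    (hr : (2 * c + 1).Prime) (hab : a ≠ b) (hac : a ≠ c) (hbc : b ≠ c) :
    Bad ((2 * a + 1) * (2 * b + 1) * (2 * c + 1)) := by
  have ha : 1 ≤ a := by have := hp.two_le; omega
  have hb : 1 ≤ b := by have := hq.two_le; omega
  have hc : 1 ≤ c := by have := hr.two_le; omega
  set p := 2 * a + 1 with hpdef
  set q := 2 * b + 1 with hqdef
  set r := 2 * c + 1 with hrdef
  have cpq : Nat.Coprime p q := (Nat.coprime_primes hp hq).mpr (by omega)
  have cpr : Nat.Coprime p r := (Nat.coprime_primes hp hr).mpr (by omega)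
  have cqr : Nat.Coprime q r := (Nat.coprime_primes hq hr).mpr (by omega)
  obtain ⟨u, -, hu⟩ := Nat.exists_mul_mod_eq_one_of_coprime
    (Nat.Coprime.mul_left cpq.symm cpr.symm) hp.one_lt
  obtain ⟨v, -, hv⟩ := Nat.exists_mul_mod_eq_one_of_coprime
    (Nat.Coprime.mul_left cpq cqr.symm) hq.one_lt
  obtain ⟨w, -, hw⟩ := Nat.exists_mul_mod_eq_one_of_coprime
    (Nat.Coprime.mul_left cpr cqr) hr.one_lt
  have dp : p * q * r / p = q * r := by rw [mul_assoc, Nat.mul_div_cancel_left _ hp.pos]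
  have dq : p * q * r / q = p * r := by
    rw [show p * q * r = q * (p * r) by ring, Nat.mul_div_cancel_left _ hq.pos]
  have dr : p * q * r / r = p * q := Nat.mul_div_cancel _ hr.pos
  have ha0 : (0 : ℝ) < a := by exact_mod_cast ha
  have hb0 : (0 : ℝ) < b := by exact_mod_cast hb
  have hc0 : (0 : ℝ) < c := by exact_mod_cast hc
  have hinv1 : ∀ n : ℕ, 1 ≤ n → ((n : ℝ))⁻¹ ≤ 1 := fun n hn =>
    inv_le_one_of_one_le₀ (by exact_mod_cast hn)
  have hinv2 : ∀ n : ℕ, 2 ≤ n → ((n : ℝ))⁻¹ ≤ 1 / 2 := fun n hn => by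
    rw [one_div]
    exact inv_anti₀ (by norm_num) (by exact_mod_cast hn)
  have hs : ((a : ℝ))⁻¹ + ((b : ℝ))⁻¹ + ((c : ℝ))⁻¹ ≤ 2 := by
    by_cases h1 : a = 1
    · linarith [hinv1 a ha, hinv2 b (by omega), hinv2 c (by omega)]
    · by_cases h2 : b = 1
      · linarith [hinv2 a (by omega), hinv1 b hb, hinv2 c (by omega)]
      · linarith [hinv2 a (by omega), hinv2 b (by omega), hinv1 c hc]
  set T := tab ((a : ℝ))⁻¹ ((b : ℝ))⁻¹ ((c : ℝ))⁻¹ with hT
  refine ⟨fun n => T (cl a (u * n % p)) (cl b (v * n % q)) (cl c (w * n % r)), ?_, ?_, ?_⟩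
  · intro l hl hlk m
    rcases (Nat.Prime.dvd_mul hl).mp hlk with h1 | h1
    · rcases (Nat.Prime.dvd_mul hl).mp h1 with h2 | h2
      · rw [(Nat.prime_dvd_prime_iff_eq hl hp).mp h2, dp]
        simp only [coord_eq hu, coord_fix (Dvd.intro r rfl), coord_fix (Dvd.intro_left q rfl)]
        rw [sum_shift p (u * m) fun x => T (cl a x) (cl b (v * m % q)) (cl c (w * m % r)),
          sum_cl a fun x => T x (cl b (v * m % q)) (cl c (w * m % r))]
        have h := tab_x ((a : ℝ))⁻¹ ((b : ℝ))⁻¹ ((c : ℝ))⁻¹ (cl b (v * m % q)) (cl c (w * m % r))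
        have h' := congrArg (fun t => (a : ℝ) * t) h
        simp only [mul_add, ← mul_assoc, mul_inv_cancel₀ ha0.ne', one_mul, mul_zero] at h'
        exact h'
      · rw [(Nat.prime_dvd_prime_iff_eq hl hq).mp h2, dq]
        simp only [coord_eq hv, coord_fix (Dvd.intro r rfl), coord_fix (Dvd.intro_left p rfl)]
        rw [sum_shift q (v * m) fun x => T (cl a (u * m % p)) (cl b x) (cl c (w * m % r)),
          sum_cl b fun x => T (cl a (u * m % p)) x (cl c (w * m % r))]
        have h := tab_y ((a : ℝ))⁻¹ ((b : ℝ))⁻¹ ((c : ℝ))⁻¹ (cl a (u * m % p)) (cl c (w * m % r))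
        have h' := congrArg (fun t => (b : ℝ) * t) h
        simp only [mul_add, ← mul_assoc, mul_inv_cancel₀ hb0.ne', one_mul, mul_zero] at h'
        exact h'
    · rw [(Nat.prime_dvd_prime_iff_eq hl hr).mp h1, dr]
      simp only [coord_eq hw, coord_fix (Dvd.intro q rfl), coord_fix (Dvd.intro_left p rfl)]
      rw [sum_shift r (w * m) fun x => T (cl a (u * m % p)) (cl b (v * m % q)) (cl c x),
        sum_cl c fun x => T (cl a (u * m % p)) (cl b (v * m % q)) x]
      have h := tab_z ((a : ℝ))⁻¹ ((b : ℝ))⁻¹ ((c : ℝ))⁻¹ (cl a (u * m % p)) (cl b (v * m % q))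
      have h' := congrArg (fun t => (c : ℝ) * t) h
      simp only [mul_add, ← mul_assoc, mul_inv_cancel₀ hc0.ne', one_mul, mul_zero] at h'
      exact h'
  · intro n
    exact tab_abs (by positivity) (by positivity) (by positivity) (hinv1 a ha) (hinv1 b hb)
      (hinv1 c hc) hs _ _ _
  · intro g hg hz
    by_contra hcon
    push Not at hcon
    have hval : ∀ x < p, ∀ y < q, ∀ z < r, T (cl a x) (cl b y) (cl c z) = 1 →
        g (x * (q * r) + y * (p * r) + z * (p * q)) = 1 := by
      intro x hx y hy z hz h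
      apply hcon
      have e1 : u * (x * (q * r) + y * (p * r) + z * (p * q)) % p = x := by
        rw [coord_fix (Dvd.intro q rfl), coord_fix (Dvd.intro r rfl), ← zero_add (x * (q * r)),
          coord_eq hu, mul_zero, zero_add, Nat.mod_eq_of_lt hx]
      have e2 : v * (x * (q * r) + y * (p * r) + z * (p * q)) % q = y := by
        rw [coord_fix (Dvd.intro_left p rfl), add_comm, coord_fix (Dvd.intro r rfl),
          ← zero_add (y * (p * r)), coord_eq hv, mul_zero, zero_add, Nat.mod_eq_of_lt hy]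
      have e3 : w * (x * (q * r) + y * (p * r) + z * (p * q)) % r = z := by
        rw [show x * (q * r) + y * (p * r) + z * (p * q) =
            0 + z * (p * q) + x * (q * r) + y * (p * r) by ring,
          coord_fix (Dvd.intro_left p rfl), coord_fix (Dvd.intro_left q rfl),
          coord_eq hw, mul_zero, zero_add, Nat.mod_eq_of_lt hz]
      show T (cl a (u * _ % p)) (cl b (v * _ % q)) (cl c (w * _ % r)) = 1
      rw [e1, e2, e3]
      exact h
    set G : ℕ → ℕ → ℕ → ℝ := fun x y z => g (x * (q * r) + y * (p * r) + z * (p * q)) with hG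
    have lx : ∀ y z, ∑ x ∈ range p, G x y z = 0 := by
      intro y z
      have h := hg p hp (Dvd.intro (q * r) (by ring)) (y * (p * r) + z * (p * q))
      rw [dp] at h
      rw [← h]
      exact Finset.sum_congr rfl fun x _ => by simp only [hG]; congr 1; ring
    have ly : ∀ x z, ∑ y ∈ range q, G x y z = 0 := by
      intro x z
      have h := hg q hq (Dvd.intro (p * r) (by ring)) (x * (q * r) + z * (p * q))
      rw [dq] at h
      rw [← h]
      exact Finset.sum_congr rfl fun x _ => by simp only [hG]; congr 1; ring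
    have lz : ∀ x y, ∑ z ∈ range r, G x y z = 0 := by
      intro x y
      have h := hg r hr (Dvd.intro (p * q) (by ring)) (x * (q * r) + y * (p * r))
      rw [dr] at h
      exact h
    have hp0 : 0 < p := hp.pos
    have hq0 : 0 < q := hq.pos
    have hr0 : 0 < r := hr.pos
    have sxy := slice a b (fun x y => G x y 0) (fun y => lx y 0) (fun x => ly x 0)
      (fun i hi j hj => hval _ (by omega) _ (by omega) _ hr0 (by
        rw [cl_one hi, cl_one hj, cl_zero]; simp [hT, tab]))
      (fun i hi j hj => hval _ (by omega) _ (by omega) _ hr0 (by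
        rw [cl_two, cl_two, cl_zero]; simp [hT, tab]))
    have sxz := slice a c (fun x z => G x 0 z) (fun z => lx 0 z) (fun x => lz x 0)
      (fun i hi j hj => hval _ (by omega) _ hq0 _ (by omega) (by
        rw [cl_one hi, cl_one hj, cl_zero]; simp [hT, tab]))
      (fun i hi j hj => hval _ (by omega) _ hq0 _ (by omega) (by
        rw [cl_two, cl_two, cl_zero]; simp [hT, tab]))
    have syz := slice b c (fun y z => G 0 y z) (fun z => ly 0 z) (fun y => lz 0 y)
      (fun i hi j hj => hval _ hp0 _ (by omega) _ (by omega) (by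
        rw [cl_one hi, cl_one hj, cl_zero]; simp [hT, tab]))
      (fun i hi j hj => hval _ hp0 _ (by omega) _ (by omega) (by
        rw [cl_two, cl_two, cl_zero]; simp [hT, tab]))
    have h000 : G 0 0 0 = 1 := hval _ hp0 _ hq0 _ hr0 (by
      rw [cl_zero, cl_zero, cl_zero]; simp [hT, tab])
    have h0 := lx 0 0
    rw [sum_split a fun x => G x 0 0, h000] at h0
    choose zf hzf using hz
    have h1 : ∑ i ∈ range a, G (i + 1) 0 0 =
        ((∑ i ∈ range a, zf ((i + 1) * (q * r) + 0 * (p * r) + 0 * (p * q)) : ℤ) : ℝ) := by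
      push_cast
      exact Finset.sum_congr rfl fun i _ => hzf _
    have h2 : ((2 * ∑ i ∈ range a, zf ((i + 1) * (q * r) + 0 * (p * r) + 0 * (p * q)) + 1 : ℤ) : ℝ)
        = 0 := by
      rw [Int.cast_add, Int.cast_mul, ← h1]
      have := sxy.2
      have := sxz.1
      have := syz.1
      push_cast
      linarith
    have h3 := Int.cast_eq_zero.mp h2
    omega

theorem bad_of_three {k p q r : ℕ} (hk : k ≠ 0) (hp : p.Prime) (hq : q.Prime) (hr : r.Prime)
    (hp2 : p ≠ 2) (hq2 : q ≠ 2) (hr2 : r ≠ 2) (hpq : p ≠ q) (hpr : p ≠ r) (hqr : q ≠ r)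
    (dp : p ∣ k) (dq : q ∣ k) (dr : r ∣ k) : Bad k := by
  obtain ⟨a, rfl⟩ := hp.odd_of_ne_two hp2
  obtain ⟨b, rfl⟩ := hq.odd_of_ne_two hq2
  obtain ⟨c, rfl⟩ := hr.odd_of_ne_two hr2
  have h := bad_base hp hq hr (by omega) (by omega) (by omega)
  have cpq := (Nat.coprime_primes hp hq).mpr hpq
  have cpr := (Nat.coprime_primes hp hr).mpr hpr
  have cqr := (Nat.coprime_primes hq hr).mpr hqr
  obtain ⟨t, ht⟩ := Nat.Coprime.mul_dvd_of_dvd_of_dvd (Nat.Coprime.mul_left cpr cqr)
    (Nat.Coprime.mul_dvd_of_dvd_of_dvd cpq dp dq) dr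
  have ht0 : t ≠ 0 := fun h0 => hk (by rw [ht, h0, mul_zero])
  rw [ht, mul_comm]
  refine h.of_dvd ?_ ht0
  calc 2 ≤ 1 * 1 * (2 * c + 1) := by have := hr.two_le; omega
    _ ≤ (2 * a + 1) * (2 * b + 1) * (2 * c + 1) :=
      Nat.mul_le_mul_right _ (Nat.mul_le_mul (by omega) (by omega))

end Pool.Agent.Lib.MP_c80912_nt
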