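import Pool.Agent.Lib.MP_c80912_nt.Pos

set_option autoImplicit false

/-! The relations among roots of unity are generated by the sums over cosets of subgroups of prime order. -/

namespace Pool.Agent.Lib.MP_c80912_nt

open Finset Polynomial

/-- The linear form with value `f n` on `X ^ n`. -/
noncomputable def lam (f : ℕ → ℝ) : ℝ[X] →ₗ[ℝ] ℝ :=
  Polynomial.lsum fun n => (LinearMap.id : ℝ →ₗ[ℝ] ℝ).smulRight (f n)

theorem lam_monomial (f : ℕ → ℝ) (n : ℕ) (a : ℝ) : lam f (monomial n a) = a * f n := by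
  unfold lam
  rw [Polynomial.lsum_apply, Polynomial.sum_monomial_index] <;> simp

/-- The largest ideal killed by `lam f`. -/
def killed (f : ℕ → ℝ) : Ideal ℝ[X] where
  carrier := {P | ∀ Q, lam f (Q * P) = 0}
  add_mem' := fun {P P'} h h' Q => by rw [mul_add, map_add, h Q, h' Q, add_zero]
  zero_mem' := fun Q => by rw [mul_zero, map_zero]
  smul_mem' := fun c P h Q => by rw [smul_eq_mul, ← mul_assoc]; exact h _

theorem geom_mem {k p : ℕ} {f : ℕ → ℝ} (hf : Rel k f) (hp : p.Prime) (hpk : p ∣ k) :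
    (∑ i ∈ range p, ((X : ℝ[X]) ^ (k / p)) ^ i) ∈ killed f := by
  intro Q
  induction Q using Polynomial.induction_on' with
  | add P Q hP hQ => rw [add_mul, map_add, hP, hQ, add_zero]
  | monomial m a =>
    rw [Finset.mul_sum, map_sum]
    have h : ∀ i, lam f (monomial m a * ((X : ℝ[X]) ^ (k / p)) ^ i) = a * f (m + i * (k / p)) := by
      intro i
      rw [← pow_mul, monomial_mul_X_pow, lam_monomial, mul_comm (k / p)]
    simp only [h]
    rw [← Finset.mul_sum, hf p hp hpk m, mul_zero]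

theorem cyclo_mem {k : ℕ} (hk : 2 ≤ k) {f : ℕ → ℝ} (hf : Rel k f) : cyclotomic k ℝ ∈ killed f := by
  have hG : ∀ p, p.Prime → p ∣ k →
      ∑ i ∈ range p, (Ideal.Quotient.mk (killed f) X ^ (k / p)) ^ i = 0 := by
    intro p hp hpk
    have h := Ideal.Quotient.eq_zero_iff_mem.mpr (geom_mem hf hp hpk)
    simpa only [map_sum, map_pow] using h
  have hunit : ∀ d ∈ k.properDivisors, IsUnit (Ideal.Quotient.mk (killed f) (cyclotomic d ℝ)) := by
    intro d hd
    obtain ⟨⟨t, ht⟩, hlt⟩ := Nat.mem_properDivisors.mp hd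
    have ht1 : t ≠ 1 := fun h => by rw [h, mul_one] at ht; omega
    obtain ⟨p, hp, s, hs⟩ := Nat.exists_prime_and_dvd ht1
    have hpk : p ∣ k := ⟨d * s, by rw [ht, hs]; ring⟩
    have hkp : k / p = d * s := by
      rw [ht, hs, show d * (p * s) = p * (d * s) by ring, Nat.mul_div_cancel_left _ hp.pos]
    have h1 : cyclotomic d ℝ ∣ X ^ (k / p) - 1 := by
      refine (cyclotomic.dvd_X_pow_sub_one d ℝ).trans ?_
      rw [hkp, pow_mul]
      simpa using sub_dvd_pow_sub_pow ((X : ℝ[X]) ^ d) 1 s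
    have h2 : (X : ℝ[X]) ^ (k / p) - 1 ∣ C (p : ℝ) - ∑ i ∈ range p, ((X : ℝ[X]) ^ (k / p)) ^ i := by
      have h3 : (C (p : ℝ) : ℝ[X]) - ∑ i ∈ range p, ((X : ℝ[X]) ^ (k / p)) ^ i =
          -∑ i ∈ range p, (((X : ℝ[X]) ^ (k / p)) ^ i - 1) := by
        rw [Finset.sum_sub_distrib]
        simp
      rw [h3, dvd_neg]
      refine Finset.dvd_sum fun i _ => ?_
      simpa using sub_dvd_pow_sub_pow ((X : ℝ[X]) ^ (k / p)) 1 i
    have h4 := map_dvd (Ideal.Quotient.mk (killed f)) (h1.trans h2)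
    rw [map_sub, Ideal.Quotient.eq_zero_iff_mem.mpr (geom_mem hf hp hpk), sub_zero] at h4
    refine isUnit_of_dvd_unit h4 (IsUnit.map _ ?_)
    exact isUnit_C.mpr (IsUnit.mk0 _ (by exact_mod_cast hp.ne_zero))
  obtain ⟨p, hp, hpk⟩ := Nat.exists_prime_and_dvd (n := k) (by omega)
  have h5 : Ideal.Quotient.mk (killed f) (X ^ k - 1) = 0 := by
    have h6 := geom_sum_mul ((X : ℝ[X]) ^ (k / p)) p
    rw [← pow_mul, Nat.div_mul_cancel hpk] at h6
    rw [← h6, map_mul, Ideal.Quotient.eq_zero_iff_mem.mpr (geom_mem hf hp hpk), zero_mul]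
  rw [← prod_cyclotomic_eq_X_pow_sub_one (by omega) ℝ, ← Nat.cons_self_properDivisors (by omega),
    Finset.prod_cons, map_mul, map_prod] at h5
  have h7 : IsUnit (∏ d ∈ k.properDivisors, Ideal.Quotient.mk (killed f) (cyclotomic d ℝ)) :=
    IsUnit.prod_iff.mpr hunit
  exact Ideal.Quotient.eq_zero_iff_mem.mp ((h7.mul_left_eq_zero).mp h5)

theorem rel_expand {k : ℕ} (hk : 2 ≤ k) {f : ℕ → ℝ} (hf : Rel k f) (r : ℕ) :
    ∑ s : Fin (Nat.totient k), ((((X : ℤ[X]) ^ r %ₘ cyclotomic k ℤ).coeff s : ℤ) : ℝ) * f s =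
      f r := by
  have h1 := modByMonic_add_div ((X : ℤ[X]) ^ r) (cyclotomic k ℤ)
  have h2 := sum_modByMonic_coeff (p := (X : ℤ[X]) ^ r) (cyclotomic.monic k ℤ)
    (n := Nat.totient k) (by rw [degree_cyclotomic])
  rw [← h2] at h1
  have h3 := congrArg (fun P => lam f (P.map (Int.castRingHom ℝ))) h1
  simp only [Polynomial.map_add, Polynomial.map_mul, Polynomial.map_sum, Polynomial.map_monomial,
    Polynomial.map_pow, map_X, map_cyclotomic_int, map_add, map_sum, lam_monomial] at h3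
  rw [mul_comm (cyclotomic k ℝ), cyclo_mem hk hf, add_zero, X_pow_eq_monomial (n := r) (R := ℝ),
    lam_monomial, one_mul] at h3
  exact h3

theorem cyclo_dvd_geom {k p : ℕ} (hk : 2 ≤ k) (hp : 2 ≤ p) (hpk : p ∣ k) :
    cyclotomic k ℤ ∣ ∑ i ∈ range p, ((X : ℤ[X]) ^ (k / p)) ^ i := by
  have hd : 0 < k / p := Nat.div_pos (Nat.le_of_dvd (by omega) hpk) (by omega)
  have hmem : k / p ∈ k.properDivisors :=
    Nat.mem_properDivisors.mpr ⟨Nat.div_dvd_of_dvd hpk, Nat.div_lt_self (by omega) (by omega)⟩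
  have h := X_pow_sub_one_mul_cyclotomic_dvd_X_pow_sub_one_of_dvd ℤ hmem
  have h6 := mul_geom_sum ((X : ℤ[X]) ^ (k / p)) p
  rw [← pow_mul, Nat.div_mul_cancel hpk] at h6
  rw [← h6] at h
  have hne : (X : ℤ[X]) ^ (k / p) - 1 ≠ 0 := by
    have := X_pow_sub_C_ne_zero hd (1 : ℤ)
    simpa using this
  exact (mul_dvd_mul_iff_left hne).mp h

end Pool.Agent.Lib.MP_c80912_nt
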