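import Mathlib

/-!
A block-constant table with zero line sums, built on a cyclic Latin square.
-/

set_option autoImplicit false

namespace Pool.Agent.Lib.MP_c80912_nt

open Finset

variable {l : ℕ} [NeZero l]

/-- `l - 1` at `s₀` and `-1` elsewhere. -/
noncomputable def ee (s₀ s : ZMod l) : ℝ := if s = s₀ then l - 1 else -1

theorem sum_ee (s₀ : ZMod l) : ∑ s, ee s₀ s = 0 := by
  have h : ∀ s, ee s₀ s = (if s = s₀ then (l : ℝ) else 0) - 1 := fun s => by
    unfold ee
    split_ifs <;> simp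
  simp [h, ZMod.card]

theorem sum_ee' (s₀ w : ZMod l) : ∑ s, ee s₀ (w - s) = 0 :=
  (Equiv.sum_comp (Equiv.subLeft w) (ee s₀)).trans (sum_ee s₀)

/-- The deviation on the cells of the Latin square. -/
noncomputable def dev (α β γ : ℝ) (s₀ s t u : ZMod l) : ℝ :=
  (α * β * γ + β * γ * ((l + α) * ee s₀ s) + α * γ * ((l + β) * ee 0 t) +
    α * β * ((l + γ) * ee 0 u)) / l ^ 2

/-- The table; `none` is the class of the remaining indices. -/
noncomputable def lat (α β γ : ℝ) (s₀ : ZMod l) :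
    Option (ZMod l) → Option (ZMod l) → Option (ZMod l) → ℝ
  | some s, some t, some u => 1 - if s + t + u = 0 then l + dev α β γ s₀ s t u else 0
  | none, some t, some u => dev α β γ s₀ (-u - t) t u / α
  | some s, none, some u => dev α β γ s₀ s (-u - s) u / β
  | some s, some t, none => dev α β γ s₀ s t (-t - s) / γ
  | none, none, some u => 1 - if u = 0 then l + γ else 0
  | none, some t, none => 1 - if t = 0 then l + β else 0
  | some s, none, none => 1 - if s = s₀ then l + α else 0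
  | none, none, none => 1

section
variable {α β γ : ℝ} (s₀ : ZMod l)

theorem sum_dev_u (u : ZMod l) : ∑ s, dev α β γ s₀ s (-u - s) u =
    (α * β * γ + α * β * ((l + γ) * ee 0 u)) / l := by
  have h0 : (l : ℝ) ≠ 0 := NeZero.ne _
  simp only [dev, ← sum_div, sum_add_distrib, ← mul_sum, sum_ee, sum_ee', sum_const, card_univ,
    ZMod.card, nsmul_eq_mul]
  field_simp
  ring

theorem sum_dev_t (t : ZMod l) : ∑ s, dev α β γ s₀ s t (-t - s) =
    (α * β * γ + α * γ * ((l + β) * ee 0 t)) / l := by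
  have h0 : (l : ℝ) ≠ 0 := NeZero.ne _
  simp only [dev, ← sum_div, sum_add_distrib, ← mul_sum, sum_ee, sum_ee', sum_const, card_univ,
    ZMod.card, nsmul_eq_mul]
  field_simp
  ring

theorem sum_dev_u' (u : ZMod l) : ∑ t, dev α β γ s₀ (-u - t) t u =
    (α * β * γ + α * β * ((l + γ) * ee 0 u)) / l := by
  have h0 : (l : ℝ) ≠ 0 := NeZero.ne _
  simp only [dev, ← sum_div, sum_add_distrib, ← mul_sum, sum_ee, sum_ee', sum_const, card_univ,
    ZMod.card, nsmul_eq_mul]
  field_simp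
  ring

theorem sum_dev_s (s : ZMod l) : ∑ u, dev α β γ s₀ s (-u - s) u =
    (α * β * γ + β * γ * ((l + α) * ee s₀ s)) / l := by
  have h0 : (l : ℝ) ≠ 0 := NeZero.ne _
  have e : ∀ u : ZMod l, -u - s = -s - u := fun u => by ring
  simp only [dev, e, ← sum_div, sum_add_distrib, ← mul_sum, sum_ee, sum_ee', sum_const, card_univ,
    ZMod.card, nsmul_eq_mul]
  field_simp
  ring

theorem sum_dev_s' (s : ZMod l) : ∑ t, dev α β γ s₀ s t (-t - s) =
    (α * β * γ + β * γ * ((l + α) * ee s₀ s)) / l := by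
  have h0 : (l : ℝ) ≠ 0 := NeZero.ne _
  have e : ∀ u : ZMod l, -u - s = -s - u := fun u => by ring
  simp only [dev, e, ← sum_div, sum_add_distrib, ← mul_sum, sum_ee, sum_ee', sum_const, card_univ,
    ZMod.card, nsmul_eq_mul]
  field_simp
  ring

theorem sum_dev_t' (t : ZMod l) : ∑ u, dev α β γ s₀ (-u - t) t u =
    (α * β * γ + α * γ * ((l + β) * ee 0 t)) / l := by
  have h0 : (l : ℝ) ≠ 0 := NeZero.ne _
  have e : ∀ u : ZMod l, -u - t = -t - u := fun u => by ring
  simp only [dev, e, ← sum_div, sum_add_distrib, ← mul_sum, sum_ee, sum_ee', sum_const, card_univ,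
    ZMod.card, nsmul_eq_mul]
  field_simp
  ring

theorem sum_one_sub (w : ZMod l) (φ : ZMod l → ℝ) (P : ZMod l → Prop) [DecidablePred P]
    (h : ∀ s, P s ↔ s = w) : ∑ s, (1 - if P s then φ s else 0) = l - φ w := by
  simp [h, ZMod.card]

theorem lat_x (hα : α ≠ 0) (hβ : β ≠ 0) (hγ : γ ≠ 0) (j k : Option (ZMod l)) :
    ∑ s, lat α β γ s₀ (some s) j k + α * lat α β γ s₀ none j k = 0 := by
  have h0 : (l : ℝ) ≠ 0 := NeZero.ne _
  rcases j with _ | t <;> rcases k with _ | u <;> simp only [lat]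
  · rw [sum_one_sub s₀ (fun _ => l + α) _ fun _ => Iff.rfl]
    ring
  · rw [← sum_div, sum_dev_u, ee]
    split_ifs <;> field_simp <;> ring
  · rw [← sum_div, sum_dev_t, ee]
    split_ifs <;> field_simp <;> ring
  · rw [sum_one_sub (-u - t) (fun s => l + dev α β γ s₀ s t u) _ fun s =>
      ⟨fun h => by linear_combination h, fun h => by linear_combination h⟩]
    field_simp
    ring

theorem lat_y (hα : α ≠ 0) (hβ : β ≠ 0) (hγ : γ ≠ 0) (i k : Option (ZMod l)) :
    ∑ t, lat α β γ s₀ i (some t) k + β * lat α β γ s₀ i none k = 0 := by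
  have h0 : (l : ℝ) ≠ 0 := NeZero.ne _
  rcases i with _ | s <;> rcases k with _ | u <;> simp only [lat]
  · rw [sum_one_sub 0 (fun _ => l + β) _ fun _ => Iff.rfl]
    ring
  · rw [← sum_div, sum_dev_u', ee]
    split_ifs <;> field_simp <;> ring
  · rw [← sum_div, sum_dev_s', ee]
    split_ifs <;> field_simp <;> ring
  · rw [sum_one_sub (-u - s) (fun t => l + dev α β γ s₀ s t u) _ fun t =>
      ⟨fun h => by linear_combination h, fun h => by linear_combination h⟩]
    field_simp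
    ring

theorem lat_z (hα : α ≠ 0) (hβ : β ≠ 0) (hγ : γ ≠ 0) (i j : Option (ZMod l)) :
    ∑ u, lat α β γ s₀ i j (some u) + γ * lat α β γ s₀ i j none = 0 := by
  have h0 : (l : ℝ) ≠ 0 := NeZero.ne _
  rcases i with _ | s <;> rcases j with _ | t <;> simp only [lat]
  · rw [sum_one_sub 0 (fun _ => l + γ) _ fun _ => Iff.rfl]
    ring
  · rw [← sum_div, sum_dev_t', ee]
    split_ifs <;> field_simp <;> ring
  · rw [← sum_div, sum_dev_s, ee]
    split_ifs <;> field_simp <;> ring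
  · rw [sum_one_sub (-t - s) (fun u => l + dev α β γ s₀ s t u) _ fun u =>
      ⟨fun h => by linear_combination h, fun h => by linear_combination h⟩]
    field_simp
    ring

omit [NeZero l] in
theorem ee_bound (hl : 2 ≤ l) {δ : ℝ} (h0 : 0 ≤ δ) (h1 : δ ≤ 1) (s₀ s : ZMod l) :
    -(2 * (l : ℝ) ^ 2) ≤ (l + δ) * ee s₀ s ∧ (l + δ) * ee s₀ s ≤ l ^ 2 - 1 := by
  have h2 : (2 : ℝ) ≤ l := by exact_mod_cast hl
  unfold ee
  split_ifs <;> constructor <;> nlinarith

omit [NeZero l] in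
theorem dev_bound (hl : 2 ≤ l) (hα : α ∈ Set.Icc (1 / 8 : ℝ) (1 / 4))
    (hβ : β ∈ Set.Icc (1 / 8 : ℝ) (1 / 4)) (hγ : γ ∈ Set.Icc (1 / 8 : ℝ) (1 / 4))
    {δ : ℝ} (hδ : δ = α ∨ δ = β ∨ δ = γ) (s t u : ZMod l) :
    -(2 * δ) ≤ dev α β γ s₀ s t u ∧ dev α β γ s₀ s t u ≤ δ := by
  obtain ⟨a1, a2⟩ := hα
  obtain ⟨b1, b2⟩ := hβ
  obtain ⟨c1, c2⟩ := hγ
  have h2 : (2 : ℝ) ≤ l := by exact_mod_cast hl
  have h3 : (0 : ℝ) < l ^ 2 := by positivity
  obtain ⟨d1, d2⟩ := ee_bound hl (δ := α) (by linarith) (by linarith) s₀ s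
  obtain ⟨e1, e2⟩ := ee_bound hl (δ := β) (by linarith) (by linarith) 0 t
  obtain ⟨f1, f2⟩ := ee_bound hl (δ := γ) (by linarith) (by linarith) 0 u
  have p1 : 0 ≤ β * γ := by positivity
  have p2 : 0 ≤ α * γ := by positivity
  have p3 : 0 ≤ α * β := by positivity
  have p4 : 0 ≤ α * β * γ := by positivity
  have p5 : α * β * γ ≤ α * β := mul_le_of_le_one_right p3 (by linarith)
  have hS : β * γ + α * γ + α * β ≤ δ := by
    rcases hδ with rfl | rfl | rfl <;> nlinarith
  have hS' := mul_le_mul_of_nonneg_right hS h3.le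
  unfold dev
  rw [le_div_iff₀ h3, div_le_iff₀ h3]
  constructor
  · nlinarith [mul_le_mul_of_nonneg_left d1 p1, mul_le_mul_of_nonneg_left e1 p2,
      mul_le_mul_of_nonneg_left f1 p3]
  · nlinarith [mul_le_mul_of_nonneg_left d2 p1, mul_le_mul_of_nonneg_left e2 p2,
      mul_le_mul_of_nonneg_left f2 p3]

omit [NeZero l] in
theorem lat_bound (hl : 2 ≤ l) (hα : α ∈ Set.Icc (1 / 8 : ℝ) (1 / 4))
    (hβ : β ∈ Set.Icc (1 / 8 : ℝ) (1 / 4)) (hγ : γ ∈ Set.Icc (1 / 8 : ℝ) (1 / 4))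
    (i j k : Option (ZMod l)) : -(l : ℝ) ≤ lat α β γ s₀ i j k ∧ lat α β γ s₀ i j k ≤ 1 := by
  have h2 : (2 : ℝ) ≤ l := by exact_mod_cast hl
  have key : ∀ {δ : ℝ}, δ ∈ Set.Icc (1 / 8 : ℝ) (1 / 4) → (δ = α ∨ δ = β ∨ δ = γ) →
      ∀ s t u : ZMod l, -(l : ℝ) ≤ dev α β γ s₀ s t u / δ ∧ dev α β γ s₀ s t u / δ ≤ 1 :=
    fun {δ} h h' s t u => by
      have h3 : 0 < δ := by linarith [h.1]
      obtain ⟨d1, d2⟩ := dev_bound s₀ hl hα hβ hγ h' s t u
      rw [le_div_iff₀ h3, div_le_iff₀ h3]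
      constructor <;> nlinarith
  have key' : ∀ {δ : ℝ}, δ ∈ Set.Icc (1 / 8 : ℝ) (1 / 4) → ∀ (P : Prop) [Decidable P],
      -(l : ℝ) ≤ (1 - if P then l + δ else 0) ∧ (1 - if P then l + δ else 0) ≤ 1 :=
    fun {δ} h P _ => by split_ifs <;> constructor <;> linarith [h.1, h.2]
  rcases i with _ | s <;> rcases j with _ | t <;> rcases k with _ | u <;> simp only [lat]
  · constructor <;> linarith
  · exact key' hγ _
  · exact key' hβ _
  · exact key hα (.inl rfl) _ _ _
  · exact key' hα _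
  · exact key hβ (.inr (.inl rfl)) _ _ _
  · exact key hγ (.inr (.inr rfl)) _ _ _
  · obtain ⟨d1, d2⟩ := dev_bound s₀ hl hα hβ hγ (.inl rfl) s t u
    split_ifs <;> constructor <;> linarith [hα.1, hα.2]

end

/-- The part of the obstruction that does not depend on the first coordinate. -/
def obA (s₀ : ZMod l) : Option (ZMod l) → Option (ZMod l) → ZMod l
  | some _, some u => u
  | none, some _ => 0
  | some t, none => -t
  | none, none => s₀

/-- The part of the obstruction that does not depend on the second coordinate. -/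
def obB : Option (ZMod l) → Option (ZMod l) → ZMod l
  | some s, some _ => s
  | none, some u => -u
  | _, none => 0

/-- The part of the obstruction that does not depend on the third coordinate. -/
def obC : Option (ZMod l) → Option (ZMod l) → ZMod l
  | some _, some t => t
  | some s, none => -s
  | none, _ => 0

omit [NeZero l] in
theorem lat_eq_one (α β γ : ℝ) (s₀ : ZMod l) (i j k : Option (ZMod l))
    (h : obA s₀ j k + obB i k + obC i j ≠ 0) : lat α β γ s₀ i j k = 1 := by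
  rcases i with _ | s <;> rcases j with _ | t <;> rcases k with _ | u <;>
    simp only [lat, obA, obB, obC] at h ⊢
  · rw [if_neg fun e => h (by simp [e]), sub_zero]
  · rw [if_neg fun e => h (by simp [e]), sub_zero]
  · exact absurd (by ring) h
  · rw [if_neg fun e => h (by simp [e]), sub_zero]
  · exact absurd (by ring) h
  · exact absurd (by ring) h
  · rw [if_neg fun e => h (by linear_combination e), sub_zero]

omit [NeZero l] in
theorem obA_eq (s₀ : ZMod l) (j k : Option (ZMod l)) : obA s₀ j k =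
    obA 0 j k + s₀ * ((if j = none then 1 else 0) * (if k = none then 1 else 0)) := by
  rcases j with _ | t <;> rcases k with _ | u <;> simp [obA]

section
variable {n : ℕ} [NeZero n]

/-- `1 - n` at zero and `1` elsewhere. -/
def pv (w : ZMod n) : ℤ := if w = 0 then 1 - n else 1

theorem sum_pv (c : ZMod n) : ∑ w, pv (w + c) = 0 := by
  refine (Equiv.sum_comp (Equiv.addRight c) pv).trans ?_
  have h : ∀ w : ZMod n, pv w = 1 - if w = 0 then (n : ℤ) else 0 := fun w => by
    unfold pv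
    split_ifs <;> simp
  simp [h, ZMod.card]

theorem sum_pv' (c : ZMod n) : ∑ w, (pv (w + c) : ℝ) = 0 := by
  exact_mod_cast sum_pv c

/-- The values on the cells with one regular class. -/
noncomputable def ph (δ : ℝ) (s₀ : ZMod l) (κ : ZMod l × ZMod n) : ℝ :=
  if κ.1 = s₀ then -δ / n else pv κ.2

omit [NeZero l] in
theorem sum_ph1 (δ : ℝ) (s₀ s : ZMod l) :
    ∑ w : ZMod n, ph δ s₀ (s, w) = if s = s₀ then -δ else 0 := by
  have h0 : (n : ℝ) ≠ 0 := NeZero.ne _
  unfold ph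
  split_ifs with h
  · simp only [sum_const, card_univ, ZMod.card, nsmul_eq_mul]
    field_simp
  · simpa using sum_pv' (0 : ZMod n)

theorem sum_ph (δ : ℝ) (s₀ : ZMod l) : ∑ κ : ZMod l × ZMod n, ph δ s₀ κ = -δ := by
  simp [Fintype.sum_prod_type, sum_ph1]

/-- The values on the cells with two regular classes. -/
noncomputable def one (l n : ℕ) (x y φ ψ : ℝ) (P : Prop) [Decidable P] : ℝ :=
  -(x * φ + y * ψ) / (l * n) + (if P then x * y / (l * n ^ 2) else 0) - 2 * x * y / (l * n) ^ 2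

/-- The free values on the regular cells. -/
noncomputable def reg (l n : ℕ) (x y z φ ψ χ : ℝ) : ℝ :=
  (y * z * φ + x * z * ψ + x * y * χ) / (l * n ^ 2) + 2 * x * y * z / (l ^ 2 * n ^ 3)

/-- The second table. -/
noncomputable def lat2 (α β γ : ℝ) (s₀ : ZMod l) : Option (ZMod l × ZMod n) →
    Option (ZMod l × ZMod n) → Option (ZMod l × ZMod n) → ℝ
  | some i, some j, some k => if i.1 + j.1 + k.1 = 0 then
      reg l n α β γ (ph α s₀ i) (ph β 0 j) (ph γ 0 k) else pv (i.2 + j.2 + k.2)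
  | none, some j, some k => one l n β γ (ph γ 0 k) (ph β 0 j) (s₀ + j.1 + k.1 = 0)
  | some i, none, some k => one l n α γ (ph γ 0 k) (ph α s₀ i) (i.1 + k.1 = 0)
  | some i, some j, none => one l n α β (ph β 0 j) (ph α s₀ i) (i.1 + j.1 = 0)
  | none, none, some k => ph γ 0 k
  | none, some j, none => ph β 0 j
  | some i, none, none => ph α s₀ i
  | none, none, none => 1

theorem sum_one (x y φ : ℝ) (s₀ w : ZMod l) (P : ZMod l × ZMod n → Prop) [DecidablePred P]
    (h : ∀ κ, P κ ↔ κ.1 = w) : ∑ κ, one l n x y φ (ph x s₀ κ) (P κ) + x * φ = 0 := by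
  have h0 : (n : ℝ) ≠ 0 := NeZero.ne _
  have h1 : (l : ℝ) ≠ 0 := NeZero.ne _
  have h2 : ∑ κ : ZMod l × ZMod n, (if P κ then x * y / (l * n ^ 2) else 0) =
      n * (x * y / (l * n ^ 2)) := by
    simp [h, Fintype.sum_prod_type, ZMod.card, sum_comm (s := (univ : Finset (ZMod l)))]
  simp only [one, sum_sub_distrib, sum_add_distrib, h2, ← sum_div, sum_neg_distrib, ← mul_sum,
    sum_ph, sum_const, card_univ, Fintype.card_prod, ZMod.card, nsmul_eq_mul]
  push_cast
  field_simp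
  ring

omit [NeZero l] [NeZero n] in
theorem one_comm (x y φ ψ : ℝ) (P : Prop) [Decidable P] :
    one l n x y φ ψ P = one l n y x ψ φ P := by
  unfold one
  split_ifs <;> ring

theorem sum_reg (x y z ψ χ : ℝ) (s₀ w : ZMod l) (c : ZMod n) (P : ZMod l × ZMod n → Prop)
    [DecidablePred P] (h : ∀ κ, P κ ↔ κ.1 = w) (Q : Prop) [Decidable Q] (hQ : Q ↔ w = s₀) :
    ∑ κ, (if P κ then reg l n x y z (ph x s₀ κ) ψ χ else pv (κ.2 + c)) +
      x * one l n y z χ ψ Q = 0 := by
  have h0 : (n : ℝ) ≠ 0 := NeZero.ne _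
  have h1 : (l : ℝ) ≠ 0 := NeZero.ne _
  rw [Fintype.sum_prod_type, sum_eq_single w (fun s _ hs => by simpa [h, hs] using sum_pv' c)
    (by simp)]
  simp only [h, if_true, reg, one, hQ, sum_add_distrib, ← sum_div, ← mul_sum, sum_ph1, sum_const,
    card_univ, ZMod.card, nsmul_eq_mul]
  split_ifs <;> field_simp <;> ring

variable {α β γ : ℝ} (s₀ : ZMod l)

theorem lat2_x (j k : Option (ZMod l × ZMod n)) :
    ∑ i, lat2 α β γ s₀ (some i) j k + α * lat2 α β γ s₀ none j k = 0 := by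
  rcases j with _ | j <;> rcases k with _ | k <;> simp only [lat2]
  · rw [sum_ph]
    ring
  · exact sum_one _ _ _ _ (-k.1) _ fun _ => add_eq_zero_iff_eq_neg
  · exact sum_one _ _ _ _ (-j.1) _ fun _ => add_eq_zero_iff_eq_neg
  · simp only [add_assoc]
    exact sum_reg _ _ _ _ _ _ (-(j.1 + k.1)) _ _ (fun _ => add_eq_zero_iff_eq_neg) _
      (add_eq_zero_iff_eq_neg.trans eq_comm)

theorem lat2_y (i k : Option (ZMod l × ZMod n)) :
    ∑ j, lat2 α β γ s₀ i (some j) k + β * lat2 α β γ s₀ i none k = 0 := by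
  rcases i with _ | i <;> rcases k with _ | k <;> simp only [lat2]
  · rw [sum_ph]
    ring
  · exact sum_one _ _ _ _ (-s₀ - k.1) _ fun _ =>
      ⟨fun h => by linear_combination h, fun h => by linear_combination h⟩
  · simp only [one_comm α β]
    exact sum_one _ _ _ _ (-i.1) _ fun _ =>
      ⟨fun h => by linear_combination h, fun h => by linear_combination h⟩
  · refine Eq.trans ?_ (sum_reg β α γ (ph α s₀ i) (ph γ 0 k) 0 (-i.1 - k.1) (i.2 + k.2)
      (fun j => i.1 + j.1 + k.1 = 0)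
      (fun _ => ⟨fun h => by linear_combination h, fun h => by linear_combination h⟩)
      (i.1 + k.1 = 0) ⟨fun h => by linear_combination -h, fun h => by linear_combination -h⟩)
    congr 1
    refine sum_congr rfl fun j _ => ite_congr rfl (fun _ => ?_) fun _ => ?_
    · unfold reg
      ring
    · rw [add_comm i.2, add_assoc]

theorem lat2_z (i j : Option (ZMod l × ZMod n)) :
    ∑ k, lat2 α β γ s₀ i j (some k) + γ * lat2 α β γ s₀ i j none = 0 := by
  rcases i with _ | i <;> rcases j with _ | j <;> simp only [lat2]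
  · rw [sum_ph]
    ring
  · simp only [one_comm β γ]
    exact sum_one _ _ _ _ (-s₀ - j.1) _ fun _ =>
      ⟨fun h => by linear_combination h, fun h => by linear_combination h⟩
  · simp only [one_comm α γ]
    exact sum_one _ _ _ _ (-i.1) _ fun _ =>
      ⟨fun h => by linear_combination h, fun h => by linear_combination h⟩
  · refine Eq.trans ?_ (sum_reg γ α β (ph α s₀ i) (ph β 0 j) 0 (-i.1 - j.1) (i.2 + j.2)
      (fun k => i.1 + j.1 + k.1 = 0)
      (fun _ => ⟨fun h => by linear_combination h, fun h => by linear_combination h⟩)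
      (i.1 + j.1 = 0) ⟨fun h => by linear_combination -h, fun h => by linear_combination -h⟩)
    congr 1
    refine sum_congr rfl fun k _ => ite_congr rfl (fun _ => ?_) fun _ => ?_
    · unfold reg
      ring
    · rw [add_comm k.2]

omit [NeZero n] in
theorem pv_cases (w : ZMod n) : (pv w : ℝ) = 1 ∨ (pv w : ℝ) = -(n - 1) := by
  unfold pv
  split_ifs <;> simp

omit [NeZero l] [NeZero n] in
theorem ph_bound (hn : 2 ≤ n) {δ : ℝ} (hδ : δ ∈ Set.Icc (0 : ℝ) 1) (κ : ZMod l × ZMod n) :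
    -((n : ℝ) - 1) ≤ ph δ s₀ κ ∧ ph δ s₀ κ ≤ 1 := by
  have h2 : (2 : ℝ) ≤ n := by exact_mod_cast hn
  unfold ph
  split_ifs
  · rw [le_div_iff₀ (by linarith), div_le_iff₀ (by linarith)]
    constructor <;> nlinarith [hδ.1, hδ.2]
  · rcases pv_cases κ.2 with h | h <;> rw [h] <;> constructor <;> linarith

theorem mul_bound {w x φ : ℝ} (hw : 1 ≤ w) (hx : x ∈ Set.Icc (0 : ℝ) 1) (h : -w ≤ φ ∧ φ ≤ 1) :
    -w ≤ x * φ ∧ x * φ ≤ 1 := by
  constructor <;> nlinarith [hx.1, hx.2, h.1, h.2]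

omit [NeZero l] [NeZero n] in
theorem one_bound (hl : 2 ≤ l) (hn : 2 ≤ n) {x y φ ψ : ℝ} (hx : x ∈ Set.Icc (0 : ℝ) 1)
    (hy : y ∈ Set.Icc (0 : ℝ) 1) (hφ : -((n : ℝ) - 1) ≤ φ ∧ φ ≤ 1)
    (hψ : -((n : ℝ) - 1) ≤ ψ ∧ ψ ≤ 1) (P : Prop) [Decidable P] :
    -((n : ℝ) - 1) ≤ one l n x y φ ψ P ∧ one l n x y φ ψ P ≤ 1 := by
  have h2 : (2 : ℝ) ≤ n := by exact_mod_cast hn
  have h3 : (2 : ℝ) ≤ l := by exact_mod_cast hl
  obtain ⟨a1, a2⟩ := mul_bound (by linarith) hx hφ
  obtain ⟨b1, b2⟩ := mul_bound (by linarith) hy hψ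
  have c1 : 0 ≤ x * y := mul_nonneg hx.1 hy.1
  have c2 : x * y ≤ 1 := mul_le_one₀ hx.2 hy.1 hy.2
  have d : (4 : ℝ) ≤ l * n := by nlinarith
  have e1 : -(1 / 2) ≤ -(x * φ + y * ψ) / (l * n) := by
    rw [le_div_iff₀ (by linarith)]
    linarith
  have e2 : -(x * φ + y * ψ) / (l * n) + x * y / (l * n ^ 2) ≤ 1 := by
    rw [div_add_div _ _ (by positivity) (by positivity), div_le_one (by positivity)]
    have f1 : -(x * φ + y * ψ) * n + x * y ≤ l * n ^ 2 := by nlinarith
    nlinarith [mul_le_mul_of_nonneg_left f1 (by linarith : (0 : ℝ) ≤ l * n)]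
  have e3 : 0 ≤ x * y / (l * n ^ 2) := by positivity
  have e4 : 0 ≤ 2 * x * y / (l * n) ^ 2 := by rw [mul_assoc]; positivity
  have e5 : 2 * x * y / (l * n) ^ 2 ≤ 1 / 2 := by
    rw [div_le_iff₀ (by positivity)]
    nlinarith
  unfold one
  split_ifs <;> constructor <;> linarith

omit [NeZero l] [NeZero n] in
theorem reg_bound (hl : 2 ≤ l) (hn : 2 ≤ n) {x y z φ ψ χ : ℝ} (hx : x ∈ Set.Icc (0 : ℝ) 1)
    (hy : y ∈ Set.Icc (0 : ℝ) 1) (hz : z ∈ Set.Icc (0 : ℝ) 1) (hφ : -((n : ℝ) - 1) ≤ φ ∧ φ ≤ 1)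
    (hψ : -((n : ℝ) - 1) ≤ ψ ∧ ψ ≤ 1) (hχ : -((n : ℝ) - 1) ≤ χ ∧ χ ≤ 1) :
    -((n : ℝ) - 1) ≤ reg l n x y z φ ψ χ ∧ reg l n x y z φ ψ χ ≤ 1 := by
  have h2 : (2 : ℝ) ≤ n := by exact_mod_cast hn
  have h3 : (2 : ℝ) ≤ l := by exact_mod_cast hl
  have m : ∀ {a b : ℝ}, a ∈ Set.Icc (0 : ℝ) 1 → b ∈ Set.Icc (0 : ℝ) 1 →
      a * b ∈ Set.Icc (0 : ℝ) 1 := fun ha hb =>
    ⟨mul_nonneg ha.1 hb.1, mul_le_one₀ ha.2 hb.1 hb.2⟩
  obtain ⟨a1, a2⟩ := mul_bound (by linarith) (m hy hz) hφ
  obtain ⟨b1, b2⟩ := mul_bound (by linarith) (m hx hz) hψ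
  obtain ⟨c1, c2⟩ := mul_bound (by linarith) (m hx hy) hχ
  obtain ⟨d1, d2⟩ := m (m hx hy) hz
  have d : 2 * (n : ℝ) ^ 2 ≤ l * n ^ 2 := by nlinarith
  have d' : (32 : ℝ) ≤ l ^ 2 * n ^ 3 := by
    calc (32 : ℝ) = 2 ^ 2 * 2 ^ 3 := by norm_num
      _ ≤ _ := by gcongr
  have e1 : -1 ≤ (y * z * φ + x * z * ψ + x * y * χ) / (l * n ^ 2) := by
    rw [le_div_iff₀ (by positivity)]
    nlinarith
  have e2 : (y * z * φ + x * z * ψ + x * y * χ) / (l * n ^ 2) ≤ 1 / 2 := by
    rw [div_le_iff₀ (by positivity)]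
    nlinarith
  have e3 : 0 ≤ 2 * x * y * z / (l ^ 2 * n ^ 3) := div_nonneg (by linarith) (by positivity)
  have e4 : 2 * x * y * z / (l ^ 2 * n ^ 3) ≤ 1 / 2 := by
    rw [div_le_iff₀ (by positivity)]
    linarith
  unfold reg
  constructor <;> linarith

omit [NeZero l] [NeZero n] in
theorem lat2_bound (hl : 2 ≤ l) (hn : 2 ≤ n) (hα : α ∈ Set.Icc (0 : ℝ) 1)
    (hβ : β ∈ Set.Icc (0 : ℝ) 1) (hγ : γ ∈ Set.Icc (0 : ℝ) 1) (i j k : Option (ZMod l × ZMod n)) :
    -((n : ℝ) - 1) ≤ lat2 α β γ s₀ i j k ∧ lat2 α β γ s₀ i j k ≤ 1 := by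
  have h2 : (2 : ℝ) ≤ n := by exact_mod_cast hn
  rcases i with _ | i <;> rcases j with _ | j <;> rcases k with _ | k <;> simp only [lat2]
  · constructor <;> linarith
  · exact ph_bound _ hn hγ _
  · exact ph_bound _ hn hβ _
  · exact one_bound hl hn hβ hγ (ph_bound _ hn hγ _) (ph_bound _ hn hβ _) _
  · exact ph_bound _ hn hα _
  · exact one_bound hl hn hα hγ (ph_bound _ hn hγ _) (ph_bound _ hn hα _) _
  · exact one_bound hl hn hα hβ (ph_bound _ hn hβ _) (ph_bound _ hn hα _) _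
  · split_ifs
    · exact reg_bound hl hn hα hβ hγ (ph_bound _ hn hα _) (ph_bound _ hn hβ _)
        (ph_bound _ hn hγ _)
    · rcases pv_cases (i.2 + j.2 + k.2) with h | h <;> rw [h] <;> constructor <;> linarith

/-- The forced integer values of the second table. -/
def val2 : Option (ZMod l × ZMod n) → Option (ZMod l × ZMod n) → Option (ZMod l × ZMod n) → ℤ
  | some i, some j, some k => pv (i.2 + j.2 + k.2)
  | none, none, some k => pv k.2
  | none, some j, none => pv j.2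
  | some i, none, none => pv i.2
  | _, _, _ => 1

omit [NeZero l] [NeZero n] in
theorem val2_cases (i j k : Option (ZMod l × ZMod n)) :
    (val2 i j k : ℝ) = 1 ∨ (val2 i j k : ℝ) = -(n - 1) := by
  rcases i with _ | i <;> rcases j with _ | j <;> rcases k with _ | k <;> simp only [val2] <;>
    first | exact pv_cases _ | exact .inl Int.cast_one

omit [NeZero l] [NeZero n] in
theorem lat2_eq (α β γ : ℝ) (i j k : Option (ZMod l × ZMod n))
    (h : obA s₀ (j.map Prod.fst) (k.map Prod.fst) + obB (i.map Prod.fst) (k.map Prod.fst) +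
      obC (i.map Prod.fst) (j.map Prod.fst) ≠ 0) : lat2 α β γ s₀ i j k = val2 i j k := by
  rcases i with _ | i <;> rcases j with _ | j <;> rcases k with _ | k <;>
    simp only [lat2, val2, ph, obA, obB, obC, Option.map_some, Option.map_none] at h ⊢
  · exact Int.cast_one.symm
  · rw [if_neg fun e => h (by simp [e])]
  · rw [if_neg fun e => h (by simp [e])]
  · exact absurd (by ring) h
  · rw [if_neg fun e => h (by simp [e])]
  · exact absurd (by ring) h
  · exact absurd (by ring) h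
  · rw [if_neg fun e => h (by linear_combination e)]

end

theorem exists_cls (K : Type) [Fintype K] [Nonempty K] (a ρ : ℕ) : ∃ c : ℕ → Option K,
    ∀ (M : Type) [AddCommMonoid M] (φ : Option K → M),
      ∑ x ∈ range (Fintype.card K * a + ρ), φ (c x) = a • ∑ s, φ (some s) + ρ • φ none := by
  obtain ⟨n, hn⟩ : ∃ n, n = Fintype.card K := ⟨_, rfl⟩
  have : NeZero n := ⟨hn ▸ Fintype.card_ne_zero⟩
  let e : ZMod n ≃ K := Fintype.equivOfCardEq (by rw [ZMod.card, hn])
  rw [← hn]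
  refine ⟨fun x => if x < n * a then some (e x) else none, fun M _ φ => ?_⟩
  have h1 : ∀ m, ∑ x ∈ range (n * m), φ (some (e x)) = m • ∑ s, φ (some s) := fun m => by
    induction m with
    | zero => simp
    | succ m ih =>
      rw [Nat.mul_succ, sum_range_add, ih, succ_nsmul, ← Equiv.sum_comp e]
      congr 1
      refine sum_nbij' (fun x => (x : ZMod n)) (fun s => s.val) (fun _ _ => mem_univ _)
        (fun s _ => mem_range.2 (ZMod.val_lt s))
        (fun x hx => ZMod.val_natCast_of_lt (mem_range.1 hx))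
        (fun s _ => ZMod.natCast_zmod_val s) fun x _ => by simp
  rw [sum_range_add, ← h1]
  congr 1
  · exact sum_congr rfl fun x hx => congrArg φ (if_pos (mem_range.1 hx))
  · rw [sum_congr rfl (g := fun _ => φ none) fun x _ => congrArg φ (if_neg (by omega)),
      sum_const, card_range]

theorem obstruct {R : Type} [CommRing R] (p q r : ℕ) (G V : ℕ → ℕ → ℕ → R) (A B C : ℕ → ℕ → R)
    (m : R) (lx : ∀ y z, ∑ x ∈ range p, G x y z = 0) (ly : ∀ x z, ∑ y ∈ range q, G x y z = 0)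
    (lz : ∀ x y, ∑ z ∈ range r, G x y z = 0)
    (h : ∀ x < p, ∀ y < q, ∀ z < r, A y z + B x z + C x y ≠ 0 → G x y z = m * V x y z) :
    m * ∑ x ∈ range p, ∑ y ∈ range q, ∑ z ∈ range r, (A y z + B x z + C x y) * V x y z = 0 := by
  have e : m * ∑ x ∈ range p, ∑ y ∈ range q, ∑ z ∈ range r, (A y z + B x z + C x y) * V x y z =
      ∑ x ∈ range p, ∑ y ∈ range q, ∑ z ∈ range r,
        (A y z * G x y z + B x z * G x y z + C x y * G x y z) := by
    simp only [mul_sum]
    refine sum_congr rfl fun x hx => sum_congr rfl fun y hy => sum_congr rfl fun z hz => ?_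
    by_cases h0 : A y z + B x z + C x y = 0
    · linear_combination (m * V x y z - G x y z) * h0
    · rw [h x (mem_range.1 hx) y (mem_range.1 hy) z (mem_range.1 hz) h0]
      ring
  have e1 : ∑ x ∈ range p, ∑ y ∈ range q, ∑ z ∈ range r, A y z * G x y z = 0 := by
    rw [sum_comm]
    refine sum_eq_zero fun y _ => ?_
    rw [sum_comm]
    exact sum_eq_zero fun z _ => by rw [← mul_sum, lx, mul_zero]
  have e2 : ∑ x ∈ range p, ∑ y ∈ range q, ∑ z ∈ range r, B x z * G x y z = 0 := by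
    refine sum_eq_zero fun x _ => ?_
    rw [sum_comm]
    exact sum_eq_zero fun z _ => by rw [← mul_sum, ly, mul_zero]
  have e3 : ∑ x ∈ range p, ∑ y ∈ range q, ∑ z ∈ range r, C x y * G x y z = 0 :=
    sum_eq_zero fun x _ => sum_eq_zero fun y _ => by rw [← mul_sum, lz, mul_zero]
  rw [e]
  simp only [sum_add_distrib, e1, e2, e3, add_zero]

end Pool.Agent.Lib.MP_c80912_nt
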