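import Pool.Agent.Lib.MP_c80912_nt.Bad
import Pool.Agent.Lib.MP_c80912_nt.IdxTab

/-!
Faces all of whose points have denominators divisible by a given number.
-/

set_option autoImplicit false

namespace Pool.Agent.Lib.MP_c80912_nt

open Finset

/-- A point `f` with values in `[-w, 1]` such that every point that agrees with `f` where the
value of `f` has the property `W` has denominator divisible by `l`. -/
def Deep (l : ℕ) (w : ℝ) (W : ℝ → Prop) (k : ℕ) : Prop :=
  ∃ f : ℕ → ℝ, Rel k f ∧ (∀ n, -w ≤ f n ∧ f n ≤ 1) ∧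
    ∀ (g : ℕ → ℝ) (m : ℤ), Rel k g → (∀ n, ∃ z : ℤ, m * g n = z) →
      (∀ n, W (f n) → g n = f n) → (l : ℤ) ∣ m

theorem ext_dvd {k s : ℕ} (hs : s.Prime) (hsk : s ∣ k) {f : ℕ → ℝ} (hf : Rel k f) :
    Rel (s * k) fun n => if s ∣ n then f (n / s) else 0 := by
  intro p hp hpk m
  have hpk' : p ∣ k := by
    rcases (Nat.Prime.dvd_mul hp).mp hpk with h | h
    · rw [(Nat.prime_dvd_prime_iff_eq hp hs).mp h]; exact hsk
    · exact h
  rw [Nat.mul_div_assoc s hpk']
  by_cases hm : s ∣ m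
  · obtain ⟨m', rfl⟩ := hm
    refine Eq.trans (Finset.sum_congr rfl fun i _ => ?_) (hf p hp hpk' m')
    have h1 : s * m' + i * (s * (k / p)) = s * (m' + i * (k / p)) := by ring
    beta_reduce
    rw [h1, if_pos (Dvd.intro _ rfl), Nat.mul_div_cancel_left _ hs.pos]
  · refine Finset.sum_eq_zero fun i _ => ?_
    beta_reduce
    rw [if_neg]
    intro h1
    exact hm ((Nat.dvd_add_left (Dvd.dvd.mul_left (Dvd.intro _ rfl) i)).mp h1)

theorem ext_coprime {k s : ℕ} (hk : 2 ≤ k) (hs : s.Prime) (hsk : ¬ s ∣ k) {f : ℕ → ℝ}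
    (hf : Rel k f) : ∃ F : ℕ → ℝ, Rel (s * k) F ∧
      (∀ n, ∃ n', F n = f n' ∨ F n = -f n' / (s - 1)) ∧
      ∀ n, ∀ i < s, F (s * n + i * k) = if i = 0 then f n else -f n / (s - 1) := by
  have hcop : Nat.Coprime s k := (Nat.Prime.coprime_iff_not_dvd hs).mpr hsk
  obtain ⟨u, -, hu⟩ := Nat.exists_mul_mod_eq_one_of_coprime hcop (by omega)
  obtain ⟨v, -, hv⟩ := Nat.exists_mul_mod_eq_one_of_coprime hcop.symm hs.one_lt
  have hper := hf.periodic hk
  have hfu : ∀ x y : ℕ, f (x + s * u * y) = f (x + y) := by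
    intro x y
    rw [← hper.map_mod_nat (x + s * u * y), ← hper.map_mod_nat (x + y)]
    congr 1
    have h1 : s * u * y % k = y % k := by rw [Nat.mul_mod, hu, one_mul, Nat.mod_mod]
    rw [Nat.add_mod, h1, ← Nat.add_mod]
  have hfk : ∀ m i : ℕ, f (u * (m + i * k)) = f (u * m) := fun m i => by
    rw [← hper.map_mod_nat (u * (m + i * k)), ← hper.map_mod_nat (u * m), coord_fix dvd_rfl]
  have hs1 : (s : ℝ) - 1 ≠ 0 := sub_ne_zero.2 (by exact_mod_cast hs.one_lt.ne')
  set h : ℕ → ℝ := fun j => if j = 0 then 1 else -1 / (s - 1) with hh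
  have hsum : ∑ j ∈ range s, h j = 0 := by
    obtain ⟨s', rfl⟩ : ∃ s', s = s' + 1 := ⟨s - 1, by have := hs.two_le; omega⟩
    rw [Finset.sum_range_succ']
    simp only [hh, Nat.succ_ne_zero, if_false, if_true, sum_const, card_range, nsmul_eq_mul]
    push_cast at hs1 ⊢
    field_simp
    ring
  refine ⟨fun n => f (u * n) * h (v * n % s), ?_, fun n => ⟨u * n, ?_⟩, fun n i hi => ?_⟩
  · intro p hp hpk m
    rcases (Nat.Prime.dvd_mul hp).mp hpk with h1 | h1
    · have h2 : p = s := (Nat.prime_dvd_prime_iff_eq hp hs).mp h1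
      subst h2
      rw [Nat.mul_div_cancel_left _ hs.pos]
      simp only [hfk, coord_eq hv]
      rw [← Finset.mul_sum, sum_shift, hsum, mul_zero]
    · rw [Nat.mul_div_assoc s h1]
      have h3 : ∀ i : ℕ, f (u * (m + i * (s * (k / p)))) * h (v * (m + i * (s * (k / p))) % s) =
          f (u * m + i * (k / p)) * h (v * m % s) := by
        intro i
        have h4 : u * (m + i * (s * (k / p))) = u * m + s * u * (i * (k / p)) := by ring
        rw [h4, hfu, coord_fix (Dvd.intro _ rfl)]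
      simp only [h3]
      rw [← Finset.sum_mul, hf p hp h1, zero_mul]
  · simp only [hh]
    split_ifs
    · exact .inl (mul_one _)
    · exact .inr (by ring)
  · have h4 : u * (s * n) = 0 + s * u * n := by ring
    have h5 : v * (s * n) + i = i + s * (v * n) := by ring
    simp only [hfk, coord_eq hv]
    rw [h4, hfu, h5, Nat.add_mul_mod_self_left, Nat.mod_eq_of_lt hi, zero_add]
    simp only [hh]
    split_ifs <;> ring

theorem ext_bound {w t x : ℝ} (hw : 1 ≤ w) (ht : w ≤ t) (h : -w ≤ x ∧ x ≤ 1) :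
    -w ≤ -x / t ∧ -x / t ≤ 1 := by
  rw [le_div_iff₀ (by linarith), div_le_iff₀ (by linarith)]
  constructor <;> nlinarith [h.1, h.2]

variable {l : ℕ} {w : ℝ}

theorem Deep.mul_prime {k s : ℕ} (hk : 2 ≤ k) (hs : s.Prime) (hw : 1 ≤ w) (hws : w ≤ s - 1)
    (h : Deep l w (· = 1) k) : Deep l w (· = 1) (s * k) := by
  obtain ⟨f, hf, hb, ho⟩ := h
  have key : ∀ F : ℕ → ℝ, Rel (s * k) F → (∀ n, -w ≤ F n ∧ F n ≤ 1) → (∀ n, F (s * n) = f n) →
      Deep l w (· = 1) (s * k) := fun F h1 h2 h3 =>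
    ⟨F, h1, h2, fun g m hg hz he => ho (fun n => g (s * n)) m (rel_restrict hg) (fun _ => hz _)
      fun n hn => by rw [← h3] at hn ⊢; exact he _ hn⟩
  by_cases hsk : s ∣ k
  · refine key _ (ext_dvd hs hsk hf) (fun n => ?_) fun n => ?_
    · split_ifs
      · exact hb _
      · constructor <;> linarith
    · rw [if_pos (Dvd.intro _ rfl), Nat.mul_div_cancel_left _ hs.pos]
  · obtain ⟨F, h1, h2, h3⟩ := ext_coprime hk hs hsk hf
    refine key F h1 (fun n => ?_) fun n => by simpa using h3 n 0 hs.pos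
    obtain ⟨n', e | e⟩ := h2 n <;> rw [e]
    · exact hb _
    · exact ext_bound hw hws (hb _)

theorem Deep.of_dvd {k t : ℕ} (hk : 2 ≤ k) (hw : 1 ≤ w) (h : Deep l w (· = 1) k) (ht : t ≠ 0)
    (hs : ∀ s : ℕ, s.Prime → s ∣ t → w ≤ s - 1) : Deep l w (· = 1) (t * k) := by
  induction t using induction_on_primes with
  | zero => exact absurd rfl ht
  | one => rwa [one_mul]
  | prime_mul p a hp ih =>
    have ha : a ≠ 0 := fun h0 => ht (by rw [h0, mul_zero])
    rw [mul_assoc]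
    refine (ih ha fun s h1 h2 => hs s h1 (h2.mul_left p)).mul_prime ?_ hp hw
      (hs p hp (Dvd.intro _ rfl))
    calc 2 ≤ 1 * k := by omega
      _ ≤ a * k := Nat.mul_le_mul_right k (Nat.one_le_iff_ne_zero.mpr ha)

theorem Deep.mul_small {k s : ℕ} (hk : 2 ≤ k) (hs : s.Prime) (hsk : ¬ s ∣ k)
    (h : Deep l (s - 1) (fun x => x = 1 ∨ x = -(s - 1)) k) : Deep l (s - 1) (· = 1) (s * k) := by
  obtain ⟨f, hf, hb, ho⟩ := h
  obtain ⟨F, h1, h2, h3⟩ := ext_coprime hk hs hsk hf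
  have h2' : (2 : ℝ) ≤ s := by exact_mod_cast hs.two_le
  refine ⟨F, h1, fun n => ?_, fun g m hg hz he =>
    ho (fun n => g (s * n)) m (rel_restrict hg) (fun _ => hz _) fun n hn => ?_⟩
  · obtain ⟨n', e | e⟩ := h2 n <;> rw [e]
    · exact hb _
    · exact ext_bound (by linarith) le_rfl (hb _)
  · rcases hn with hn | hn
    · have e : F (s * n) = f n := by simpa using h3 n 0 hs.pos
      exact (he _ (e.trans hn)).trans e
    · have e := hg s hs (Dvd.intro _ rfl) (s * n)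
      rw [Nat.mul_div_cancel_left _ hs.pos] at e
      obtain ⟨s', rfl⟩ : ∃ s', s = s' + 1 := ⟨s - 1, by have := hs.two_le; omega⟩
      rw [sum_range_succ', sum_congr rfl (g := fun _ => (1 : ℝ)) fun i hi => ?_] at e
      · simp only [sum_const, card_range, nsmul_eq_mul, zero_mul, add_zero] at e
        rw [hn]
        push_cast
        linarith
      · have e1 : F ((s' + 1) * n + (i + 1) * k) = 1 := by
          rw [h3 n (i + 1) (by simpa using hi), if_neg (by omega), hn, neg_neg,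
            div_self (by linarith)]
        exact (he _ e1).trans e1

theorem crt3 {p q r : ℕ} (hp : p.Prime) (hq : q.Prime) (hr : r.Prime) (hpq : p ≠ q)
    (hpr : p ≠ r) (hqr : q ≠ r) (T : ℕ → ℕ → ℕ → ℝ) (tx : ∀ y z, ∑ x ∈ range p, T x y z = 0)
    (ty : ∀ x z, ∑ y ∈ range q, T x y z = 0) (tz : ∀ x y, ∑ z ∈ range r, T x y z = 0) :
    ∃ f : ℕ → ℝ, Rel (p * q * r) f ∧ (∀ n, ∃ x y z, f n = T x y z) ∧
      ∀ x < p, ∀ y < q, ∀ z < r, f (x * (q * r) + y * (p * r) + z * (p * q)) = T x y z := by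
  have cpq : Nat.Coprime p q := (Nat.coprime_primes hp hq).mpr hpq
  have cpr : Nat.Coprime p r := (Nat.coprime_primes hp hr).mpr hpr
  have cqr : Nat.Coprime q r := (Nat.coprime_primes hq hr).mpr hqr
  obtain ⟨u, -, hu⟩ := Nat.exists_mul_mod_eq_one_of_coprime
    (Nat.Coprime.mul_left cpq.symm cpr.symm) hp.one_lt
  obtain ⟨v, -, hv⟩ := Nat.exists_mul_mod_eq_one_of_coprime
    (Nat.Coprime.mul_left cpq cqr.symm) hq.one_lt
  obtain ⟨w, -, hw⟩ := Nat.exists_mul_mod_eq_one_of_coprime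
    (Nat.Coprime.mul_left cpr cqr) hr.one_lt
  have dp : p * q * r / p = q * r := by rw [mul_assoc, Nat.mul_div_cancel_left _ hp.pos]
  have dq : p * q * r / q = p * r := by
    rw [show p * q * r = q * (p * r) by ring, Nat.mul_div_cancel_left _ hq.pos]
  have dr : p * q * r / r = p * q := Nat.mul_div_cancel _ hr.pos
  refine ⟨fun n => T (u * n % p) (v * n % q) (w * n % r), ?_, fun n => ⟨_, _, _, rfl⟩, ?_⟩
  · intro l hl hlk m
    rcases (Nat.Prime.dvd_mul hl).mp hlk with h1 | h1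
    · rcases (Nat.Prime.dvd_mul hl).mp h1 with h2 | h2
      · rw [(Nat.prime_dvd_prime_iff_eq hl hp).mp h2, dp]
        simp only [coord_eq hu, coord_fix (Dvd.intro r rfl), coord_fix (Dvd.intro_left q rfl)]
        rw [sum_shift p (u * m) fun x => T x (v * m % q) (w * m % r), tx]
      · rw [(Nat.prime_dvd_prime_iff_eq hl hq).mp h2, dq]
        simp only [coord_eq hv, coord_fix (Dvd.intro r rfl), coord_fix (Dvd.intro_left p rfl)]
        rw [sum_shift q (v * m) fun x => T (u * m % p) x (w * m % r), ty]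
    · rw [(Nat.prime_dvd_prime_iff_eq hl hr).mp h1, dr]
      simp only [coord_eq hw, coord_fix (Dvd.intro q rfl), coord_fix (Dvd.intro_left p rfl)]
      rw [sum_shift r (w * m) fun x => T (u * m % p) (v * m % q) x, tz]
  · intro x hx y hy z hz
    have e1 : u * (x * (q * r) + y * (p * r) + z * (p * q)) % p = x := by
      rw [coord_fix (Dvd.intro q rfl), coord_fix (Dvd.intro r rfl), ← zero_add (x * (q * r)),
        coord_eq hu, mul_zero, zero_add, Nat.mod_eq_of_lt hx]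
    have e2 : v * (x * (q * r) + y * (p * r) + z * (p * q)) % q = y := by
      rw [coord_fix (Dvd.intro_left p rfl), add_comm, coord_fix (Dvd.intro r rfl),
        ← zero_add (y * (p * r)), coord_eq hv, mul_zero, zero_add, Nat.mod_eq_of_lt hy]
    have e3 : w * (x * (q * r) + y * (p * r) + z * (p * q)) % r = z := by
      rw [show x * (q * r) + y * (p * r) + z * (p * q) =
          0 + z * (p * q) + x * (q * r) + y * (p * r) by ring,
        coord_fix (Dvd.intro_left p rfl), coord_fix (Dvd.intro_left q rfl),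
        coord_eq hw, mul_zero, zero_add, Nat.mod_eq_of_lt hz]
    show T (u * _ % p) (v * _ % q) (w * _ % r) = _
    rw [e1, e2, e3]

theorem rel_line {k p d : ℕ} {g : ℕ → ℝ} {m : ℤ} {z : ℕ → ℤ} (hg : Rel k g)
    (hz : ∀ n, m * g n = z n) (hp : p.Prime) (e : k = p * d) (n : ℕ) :
    ∑ x ∈ range p, (z (n + x * d) : ZMod l) = 0 := by
  have h := hg p hp (Dvd.intro _ e.symm) n
  rw [e, Nat.mul_div_cancel_left _ hp.pos] at h
  have h1 : ((∑ x ∈ range p, z (n + x * d) : ℤ) : ℝ) = 0 := by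
    push_cast
    simp only [← hz, ← mul_sum, h, mul_zero]
  rw [← Int.cast_sum, Int.cast_eq_zero.1 h1, Int.cast_zero]

theorem deep_base [NeZero l] {K : Type} [Fintype K] [Nonempty K] (π : K → ZMod l)
    {p q r a b c ρ σ τ : ℕ} (hp : p.Prime) (hq : q.Prime) (hr : r.Prime) (hpq : p ≠ q)
    (hpr : p ≠ r) (hqr : q ≠ r) (ep : p = Fintype.card K * a + ρ)
    (eq : q = Fintype.card K * b + σ) (er : r = Fintype.card K * c + τ) (ha : a ≠ 0) (hb : b ≠ 0)
    (hc : c ≠ 0) (hu : IsUnit ((ρ : ZMod l) * (σ * τ)))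
    (T : ZMod l → Option K → Option K → Option K → ℝ) (V : Option K → Option K → Option K → ℤ)
    (W : ℝ → Prop)
    (tx : ∀ s j k, ∑ i, T s (some i) j k + (ρ / a : ℝ) * T s none j k = 0)
    (ty : ∀ s i k, ∑ j, T s i (some j) k + (σ / b : ℝ) * T s i none k = 0)
    (tz : ∀ s i j, ∑ k, T s i j (some k) + (τ / c : ℝ) * T s i j none = 0)
    (tb : ∀ s i j k, -w ≤ T s i j k ∧ T s i j k ≤ 1)
    (tv : ∀ s i j k, obA s (j.map π) (k.map π) + obB (i.map π) (k.map π) +
      obC (i.map π) (j.map π) ≠ 0 → T s i j k = V i j k)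
    (hW : ∀ i j k, W (V i j k)) (v1 : ∑ i, (V (some i) none none : ZMod l) = 0)
    (v2 : V none none none = 1) : Deep l w W (p * q * r) := by
  obtain ⟨c1, s1⟩ := exists_cls K a ρ
  obtain ⟨c2, s2⟩ := exists_cls K b σ
  obtain ⟨c3, s3⟩ := exists_cls K c τ
  rw [← ep] at s1
  rw [← eq] at s2
  rw [← er] at s3
  have line : ∀ {a ρ : ℕ} {x y : ℝ}, a ≠ 0 → x + (ρ / a : ℝ) * y = 0 → a • x + ρ • y = 0 :=
    fun {a ρ x y} h0 h => by
      have h1 : (a : ℝ) ≠ 0 := by exact_mod_cast h0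
      rw [nsmul_eq_mul, nsmul_eq_mul, ← mul_div_cancel₀ (ρ : ℝ) h1]
      linear_combination a * h
  let S : ZMod l → ZMod l := fun s => ∑ x ∈ range p, ∑ y ∈ range q, ∑ z ∈ range r,
    (obA s ((c2 y).map π) ((c3 z).map π) + obB ((c1 x).map π) ((c3 z).map π) +
      obC ((c1 x).map π) ((c2 y).map π)) * V (c1 x) (c2 y) (c3 z)
  have hS : ∀ s, S s = S 0 + s * (ρ * (σ * τ)) := fun s => by
    have e : ∑ x ∈ range p, ∑ y ∈ range q, ∑ z ∈ range r,
        ((if (c2 y).map π = none then 1 else 0) * (if (c3 z).map π = none then 1 else 0) *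
          V (c1 x) (c2 y) (c3 z) : ZMod l) = ρ * (σ * τ) := by
      have e3 : ∀ i j, ∑ z ∈ range r, ((if Option.map π j = none then 1 else 0) *
          (if (c3 z).map π = none then 1 else 0) * V i j (c3 z) : ZMod l) =
          (if Option.map π j = none then 1 else 0) * V i j none * τ := fun i j => by
        rw [s3 _ fun k => ((if Option.map π j = none then 1 else 0) *
          (if k.map π = none then 1 else 0) * V i j k : ZMod l)]
        simp [mul_comm]
      have e2 : ∀ i, ∑ y ∈ range q, ((if (c2 y).map π = none then 1 else 0) * V i (c2 y) none *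
          τ : ZMod l) = V i none none * (σ * τ) := fun i => by
        rw [s2 _ fun j => ((if j.map π = none then 1 else 0) * V i j none * τ : ZMod l)]
        simp [mul_left_comm]
      simp only [e3, e2]
      rw [← sum_mul, s1 _ fun i => (V i none none : ZMod l), v1, v2]
      simp
    rw [← e]
    simp only [S, mul_sum, ← sum_add_distrib]
    refine sum_congr rfl fun x _ => sum_congr rfl fun y _ => sum_congr rfl fun z _ => ?_
    rw [obA_eq s]
    ring
  obtain ⟨s, hs⟩ : ∃ s, S s = 1 := by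
    obtain ⟨u, hu⟩ := hu.exists_left_inv
    exact ⟨(1 - S 0) * u, by rw [hS, mul_assoc, hu]; ring⟩
  obtain ⟨f, hf, h1, h2⟩ := crt3 hp hq hr hpq hpr hqr (fun x y z => T s (c1 x) (c2 y) (c3 z))
    (fun y z => (s1 _ fun i => T s i (c2 y) (c3 z)).trans (line ha (tx _ _ _)))
    (fun x z => (s2 _ fun j => T s (c1 x) j (c3 z)).trans (line hb (ty _ _ _)))
    (fun x y => (s3 _ fun k => T s (c1 x) (c2 y) k).trans (line hc (tz _ _ _)))
  refine ⟨f, hf, fun n => ?_, fun g m hg hz he => ?_⟩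
  · obtain ⟨x, y, z, e⟩ := h1 n
    exact e ▸ tb _ _ _ _
  · choose z hz using hz
    have h := obstruct p q r (fun x y t => (z (x * (q * r) + y * (p * r) + t * (p * q)) : ZMod l))
      (fun x y t => V (c1 x) (c2 y) (c3 t)) (fun y t => obA s ((c2 y).map π) ((c3 t).map π))
      (fun x t => obB ((c1 x).map π) ((c3 t).map π))
      (fun x y => obC ((c1 x).map π) ((c2 y).map π)) m (fun y t => ?_) (fun x t => ?_)
      (fun x y => rel_line hg hz hr (by ring) _) fun x hx y hy t ht h0 => ?_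
    · rw [← ZMod.intCast_zmod_eq_zero_iff_dvd, ← h]
      exact (mul_one _).symm.trans (congrArg _ hs.symm)
    · rw [← rel_line (l := l) hg hz hp (mul_assoc _ _ _) (y * (p * r) + t * (p * q))]
      exact sum_congr rfl fun x _ => by congr 2; ring
    · rw [← rel_line (l := l) (d := p * r) hg hz hq (by ring) (x * (q * r) + t * (p * q))]
      exact sum_congr rfl fun x _ => by congr 2; ring
    · have e1 := (h2 x hx y hy t ht).trans (tv _ _ _ _ h0)
      have e2 := hz (x * (q * r) + y * (p * r) + t * (p * q))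
      rw [he _ (e1 ▸ hW _ _ _), e1] at e2
      have e3 : z (x * (q * r) + y * (p * r) + t * (p * q)) = m * V (c1 x) (c2 y) (c3 t) := by
        exact_mod_cast e2.symm
      rw [e3, Int.cast_mul]

theorem unit_rest {p a ρ : ℕ} (hl : 2 ≤ l) (hp : p.Prime) (h : l < p) (e : p = l * a + ρ) :
    IsUnit (ρ : ZMod l) := by
  have h1 : (ρ : ZMod l) = p := by rw [e]; simp
  rw [h1, ZMod.isUnit_iff_coprime]
  exact (Nat.Prime.coprime_iff_not_dvd hp).2 (Nat.not_dvd_of_pos_of_lt (by omega) h)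

theorem split_one {p : ℕ} (hl : 2 ≤ l) (h : 3 * l ^ 4 ≤ p) : ∃ a ρ : ℕ, p = l * a + ρ ∧ a ≠ 0 ∧
    (ρ / a : ℝ) ∈ Set.Icc (1 / 8 : ℝ) (1 / 4) := by
  have h1 := Nat.div_add_mod (8 * p) (8 * l + 1)
  have h2 := Nat.mod_lt (8 * p) (show 0 < 8 * l + 1 by omega)
  generalize 8 * p / (8 * l + 1) = a at h1
  rw [add_one_mul, mul_assoc] at h1
  have h3 : 12 * l ^ 2 ≤ p := by nlinarith [Nat.pow_le_pow_left hl 2]
  have h4 : l * a ≤ p := by omega
  obtain ⟨ρ, rfl⟩ := Nat.exists_eq_add_of_le h4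
  have h5 : a ≤ 8 * ρ := by omega
  have h6 : 8 * ρ ≤ a + 8 * l := by omega
  have h7 : 8 * l ≤ a := by
    by_contra h8
    nlinarith
  have h8 : (0 : ℝ) < a := by exact_mod_cast (by omega : 0 < a)
  refine ⟨a, ρ, rfl, by omega, ?_, ?_⟩
  · rw [le_div_iff₀ h8]
    have : (a : ℝ) ≤ 8 * ρ := by exact_mod_cast h5
    linarith
  · rw [div_le_iff₀ h8]
    have : (4 * ρ : ℝ) ≤ a := by exact_mod_cast (by omega : 4 * ρ ≤ a)
    linarith

theorem split_two {p n : ℕ} (hl : 2 ≤ l) (hn : 2 ≤ n) (hnl : n ≤ l) (h : 3 * l ^ 4 ≤ p) :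
    ∃ a ρ : ℕ, p = l * n * a + ρ ∧ a ≠ 0 ∧ (ρ / a : ℝ) ∈ Set.Icc (0 : ℝ) 1 := by
  have h0 : 0 < l * n := by positivity
  have h1 : l * n ≤ p / (l * n) := (Nat.le_div_iff_mul_le h0).2 (by
    calc l * n * (l * n) ≤ l * l * (l * l) := by gcongr
      _ ≤ p := by nlinarith)
  have h2 := Nat.mod_lt p h0
  refine ⟨p / (l * n), p % (l * n), (Nat.div_add_mod _ _).symm, by omega, by positivity, ?_⟩
  exact div_le_one_of_le₀ (by exact_mod_cast (by omega)) (by positivity)

theorem deep_main {k p q r : ℕ} (hl : 2 ≤ l) (hk : k ≠ 0) (hp : p.Prime) (hq : q.Prime)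
    (hr : r.Prime) (hpq : p ≠ q) (hpr : p ≠ r) (hqr : q ≠ r) (dp : p ∣ k) (dq : q ∣ k)
    (dr : r ∣ k) (bp : 3 * l ^ 4 ≤ p) (bq : 3 * l ^ 4 ≤ q) (br : 3 * l ^ 4 ≤ r) :
    ∃ w, Deep l w (· = 1) k := by
  have : NeZero l := ⟨by omega⟩
  have big : l < 3 * l ^ 4 := by
    have := Nat.le_self_pow (n := 4) (by norm_num) l
    omega
  have cpq := (Nat.coprime_primes hp hq).mpr hpq
  have cpr := (Nat.coprime_primes hp hr).mpr hpr
  have cqr := (Nat.coprime_primes hq hr).mpr hqr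
  obtain ⟨t, rfl⟩ := Nat.Coprime.mul_dvd_of_dvd_of_dvd (Nat.Coprime.mul_left cpr cqr)
    (Nat.Coprime.mul_dvd_of_dvd_of_dvd cpq dp dq) dr
  have ht : t ≠ 0 := fun h0 => hk (by rw [h0, mul_zero])
  have h2 : 2 ≤ p * q * r := hr.two_le.trans (Nat.le_mul_of_pos_left _ (mul_pos hp.pos hq.pos))
  have l2 : (2 : ℝ) ≤ l := by exact_mod_cast hl
  rw [mul_comm]
  by_cases hs : ∀ s : ℕ, s.Prime → s ∣ t → l < s
  · obtain ⟨a, ρ, ep, ha, hα⟩ := split_one hl bp
    obtain ⟨b, σ, eq, hb, hβ⟩ := split_one hl bq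
    obtain ⟨c, τ, er, hc, hγ⟩ := split_one hl br
    have ne : ∀ {x : ℝ}, x ∈ Set.Icc (1 / 8 : ℝ) (1 / 4) → x ≠ 0 := fun h => by linarith [h.1]
    refine ⟨l, Deep.of_dvd h2 (by linarith) (deep_base (K := ZMod l) id hp hq hr hpq hpr hqr
      (by rwa [ZMod.card]) (by rwa [ZMod.card]) (by rwa [ZMod.card]) ha hb hc
      ((unit_rest hl hp (by omega) ep).mul
        ((unit_rest hl hq (by omega) eq).mul (unit_rest hl hr (by omega) er)))
      (lat (ρ / a) (σ / b) (τ / c)) (fun _ _ _ => 1) _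
      (fun s => lat_x s (ne hα) (ne hβ) (ne hγ)) (fun s => lat_y s (ne hα) (ne hβ) (ne hγ))
      (fun s => lat_z s (ne hα) (ne hβ) (ne hγ)) (fun s => lat_bound s hl hα hβ hγ)
      (fun s i j k h => ?_) (fun _ _ _ => Int.cast_one) (by simp) rfl) ht fun s h1 h3 => ?_⟩
    · rw [Int.cast_one]
      exact lat_eq_one _ _ _ s i j k (by simpa using h)
    · have : ((l + 1 : ℕ) : ℝ) ≤ s := by exact_mod_cast hs s h1 h3
      push_cast at this
      linarith
  · push Not at hs
    obtain ⟨s', p1, p2, p3⟩ := hs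
    have ht1 : t ≠ 1 := fun e => p1.one_lt.ne' (Nat.dvd_one.1 (e ▸ p2))
    have hn := Nat.minFac_prime ht1
    have hmin : ∀ s : ℕ, s.Prime → s ∣ t → t.minFac ≤ s := fun s h1 h3 =>
      Nat.minFac_le_of_dvd h1.two_le h3
    obtain ⟨t', et⟩ := Nat.minFac_dvd t
    generalize t.minFac = n at hn hmin et
    have hnl : n ≤ l := (hmin s' p1 p2).trans p3
    have : NeZero n := ⟨hn.ne_zero⟩
    obtain ⟨a, ρ, ep, ha, hα⟩ := split_two hl hn.two_le hnl bp
    obtain ⟨b, σ, eq, hb, hβ⟩ := split_two hl hn.two_le hnl bq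
    obtain ⟨c, τ, er, hc, hγ⟩ := split_two hl hn.two_le hnl br
    have card : Fintype.card (ZMod l × ZMod n) = l * n := by simp
    have n2 : (2 : ℝ) ≤ n := by exact_mod_cast hn.two_le
    have nd : ∀ {x : ℕ}, x.Prime → 3 * l ^ 4 ≤ x → ¬ n ∣ x := fun h1 h3 h4 => by
      have := (Nat.prime_dvd_prime_iff_eq hn h1).1 h4
      omega
    rw [show t * (p * q * r) = t' * (n * (p * q * r)) by rw [et]; ring]
    refine ⟨n - 1, Deep.of_dvd (h2.trans (Nat.le_mul_of_pos_left _ hn.pos)) (by linarith)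
      (Deep.mul_small h2 hn (fun h => ((Nat.Prime.dvd_mul hn).1 h).elim
        (fun h => ((Nat.Prime.dvd_mul hn).1 h).elim (nd hp bp) (nd hq bq)) (nd hr br))
      (deep_base (K := ZMod l × ZMod n) Prod.fst hp hq hr hpq hpr hqr
      (by rwa [card]) (by rwa [card]) (by rwa [card]) ha hb hc
      ((unit_rest hl hp (by omega) (mul_assoc l n a ▸ ep)).mul
        ((unit_rest hl hq (by omega) (mul_assoc l n b ▸ eq)).mul
          (unit_rest hl hr (by omega) (mul_assoc l n c ▸ er))))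
      (lat2 (ρ / a) (σ / b) (τ / c)) val2 _ lat2_x lat2_y lat2_z
      (fun s => lat2_bound s hl hn.two_le hα hβ hγ) (fun s => lat2_eq s _ _ _) val2_cases ?_ rfl))
      (fun e => ht (by rw [et, e, mul_zero])) fun s h1 h3 => ?_⟩
    · simp [val2, Fintype.sum_prod_type]
    · have : (n : ℝ) ≤ s := by exact_mod_cast hmin s h1 (et ▸ h3.mul_left n)
      linarith

end Pool.Agent.Lib.MP_c80912_nt
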