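import Mathlib
import Pool.Agent.Results.MP_c80912_nt.Classification

/-!
A lattice point of fractional height in the cone over a face, and two slices of `N_(l m)`.
-/

set_option autoImplicit false

open Polynomial Finset

namespace Pool.Agent.Lib.MP_c80912_nt

open Pool.Agent.Results.MP_c80912_nt.Classification

theorem nn_split {d : ℕ} (S : Submodule ℤ (Fin d → ℤ)) :
    ∃ ρ : (Fin d → ℤ) →ₗ[ℤ] (Fin d → ℤ), (∀ x ∈ S, ρ x = x) ∧
      ∀ x, ∃ N : ℕ, 0 < N ∧ (N : ℤ) • ρ x ∈ S := by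
  set π : (Fin d → ℤ) →ₗ[ℤ] (((Fin d → ℤ) ⧸ S) ⧸ Submodule.torsion ℤ ((Fin d → ℤ) ⧸ S)) :=
    (Submodule.torsion ℤ ((Fin d → ℤ) ⧸ S)).mkQ ∘ₗ S.mkQ with hπ
  have hs : Function.Surjective π := (Submodule.mkQ_surjective _).comp (Submodule.mkQ_surjective _)
  have : Module.Free ℤ (((Fin d → ℤ) ⧸ S) ⧸ Submodule.torsion ℤ ((Fin d → ℤ) ⧸ S)) :=
    Module.free_of_finite_type_torsion_free'
  obtain ⟨σ, hσ⟩ := Module.projective_lifting_property π LinearMap.id hs
  refine ⟨LinearMap.id - σ ∘ₗ π, fun x hx => ?_, fun x => ?_⟩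
  · have h0 : π x = 0 := by
      simp [hπ, (Submodule.Quotient.mk_eq_zero S).mpr hx]
    simp [h0]
  · have h1 : π (x - σ (π x)) = 0 := by
      have := LinearMap.congr_fun hσ (π x)
      simp only [LinearMap.comp_apply, LinearMap.id_apply] at this
      rw [map_sub, this, sub_self]
    have h2 : S.mkQ (x - σ (π x)) ∈ Submodule.torsion ℤ ((Fin d → ℤ) ⧸ S) :=
      (Submodule.Quotient.mk_eq_zero _).mp h1
    obtain ⟨⟨a, ha⟩, h3⟩ := (Submodule.mem_torsion_iff _).mp h2
    have ha0 : a ≠ 0 := nonZeroDivisors.ne_zero ha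
    have h4 : a • (x - σ (π x)) ∈ S := by
      rw [← Submodule.Quotient.mk_eq_zero, Submodule.Quotient.mk_smul]
      exact h3
    refine ⟨(a * a).toNat, by have := mul_self_pos.mpr ha0; omega, ?_⟩
    rw [Int.toNat_of_nonneg (mul_self_nonneg a), mul_smul]
    exact S.smul_mem a h4

theorem nn_frac {m : ℕ} (hm : 2 ≤ m) (h : Bad m) :
    ∃ f : ℕ → ℝ, Rel m f ∧ (∀ n, |f n| ≤ 1) ∧
      ∃ (N : ℕ) (x : Fin (Nat.totient m) → ℤ) (T : Finset ℕ) (c : ℕ → ℕ), 0 < N ∧
        (∀ r ∈ T, f r = 1) ∧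
        (∀ g : ℕ → ℝ, Rel m g → N * ∑ s, (x s : ℝ) * g s = ∑ r ∈ T, (c r : ℝ) * g r) ∧
        ¬ ∃ z : ℤ, ∑ s, (x s : ℝ) * f s = z := by
  obtain ⟨f, hf, hb, ho⟩ := h
  refine ⟨f, hf, hb, ?_⟩
  set v : ℕ → Fin (Nat.totient m) → ℤ :=
    fun r s => ((X : ℤ[X]) ^ r %ₘ cyclotomic m ℤ).coeff s with hv
  have ev : ∀ g : ℕ → ℝ, Rel m g → ∀ r, ∑ s, (v r s : ℝ) * g s = g r :=
    fun g hg r => pairing_of_rel hm hg r
  obtain ⟨ρ, h1, h2⟩ := nn_split (Submodule.span ℤ (v '' {r | f r = 1}))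
  have hex : ∃ n, ¬ ∃ z : ℤ, ∑ s, (ρ (v n) s : ℝ) * f s = z := by
    by_contra hno
    simp only [not_exists_not] at hno
    obtain ⟨n, hn1, hn2⟩ := ho (fun n => ∑ s, (ρ (v n) s : ℝ) * f s) (fun p hp hpk j => by
      have h3 : ∑ i ∈ range p, v (j + i * (m / p)) = 0 := by
        funext s
        have h4 := pairing_geom hm hp.two_le hpk (Pi.single s 1) j
        simp only [pairing, Pi.single_apply, mul_ite, mul_one, mul_zero, Finset.sum_ite_eq',
          Finset.mem_univ, if_true] at h4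
        simp only [Finset.sum_apply, hv, Pi.zero_apply]
        exact_mod_cast h4
      have h5 := congrArg ρ h3
      rw [map_sum, map_zero] at h5
      rw [Finset.sum_comm]
      refine Finset.sum_eq_zero fun s _ => ?_
      have h6 := congrFun h5 s
      simp only [Finset.sum_apply, Pi.zero_apply] at h6
      rw [← Finset.sum_mul, ← Int.cast_sum, h6]
      simp) hno
    apply hn2
    show ∑ s, (ρ (v n) s : ℝ) * f s = 1
    rw [h1 _ (Submodule.subset_span ⟨n, hn1, rfl⟩), ev f hf, hn1]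
  obtain ⟨n, hn⟩ := hex
  obtain ⟨N, hN, h3⟩ := h2 (v n)
  obtain ⟨e, he, h4⟩ := (Finsupp.mem_span_image_iff_linearCombination ℤ).mp h3
  have hT : ∀ r ∈ e.support, f r = 1 := fun r hr => he hr
  have h5 : ∀ g : ℕ → ℝ, Rel m g → ∀ a : ℕ → ℤ,
      ∑ s, ((∑ r ∈ e.support, a r • v r) s : ℝ) * g s = ∑ r ∈ e.support, (a r : ℝ) * g r := by
    intro g hg a
    simp only [Finset.sum_apply, Pi.smul_apply, smul_eq_mul, Int.cast_sum, Int.cast_mul,
      Finset.sum_mul, mul_assoc]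
    rw [Finset.sum_comm]
    exact Finset.sum_congr rfl fun r _ => by rw [← Finset.mul_sum, ev g hg]
  rw [Finsupp.linearCombination_apply, Finsupp.sum] at h4
  have h6 : ∀ g : ℕ → ℝ, Rel m g →
      ∑ s, ((ρ (v n) + ∑ r ∈ e.support, |e r| • v r) s : ℝ) * g s =
        ∑ s, (ρ (v n) s : ℝ) * g s + ∑ r ∈ e.support, ((|e r| : ℤ) : ℝ) * g r := by
    intro g hg
    rw [← h5 g hg fun r => |e r|, ← Finset.sum_add_distrib]
    exact Finset.sum_congr rfl fun s _ => by rw [Pi.add_apply, Int.cast_add, add_mul]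
  refine ⟨N, ρ (v n) + ∑ r ∈ e.support, |e r| • v r, e.support,
    fun r => (e r + N * |e r|).toNat, hN, hT, fun g hg => ?_, ?_⟩
  · have h7 := h5 g hg e
    rw [h4] at h7
    simp only [Pi.smul_apply, smul_eq_mul, Int.cast_mul, Int.cast_natCast, mul_assoc,
      ← Finset.mul_sum] at h7
    rw [h6 g hg, mul_add, h7, Finset.mul_sum, ← Finset.sum_add_distrib]
    refine Finset.sum_congr rfl fun r _ => ?_
    have h8 : 0 ≤ e r + N * |e r| := by
      have h9 := neg_abs_le (e r)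
      have h10 : (1 : ℤ) ≤ N := by exact_mod_cast hN
      nlinarith [abs_nonneg (e r)]
    have h11 : (((e r + N * |e r|).toNat : ℕ) : ℝ) = ((e r + N * |e r| : ℤ) : ℝ) := by
      rw [← Int.cast_natCast, Int.toNat_of_nonneg h8]
    rw [h11, Int.cast_add, Int.cast_mul, Int.cast_natCast]
    ring
  · rintro ⟨z, hz⟩
    rw [h6 f hf] at hz
    refine hn ⟨z - ∑ r ∈ e.support, |e r|, ?_⟩
    have h7 : ∑ r ∈ e.support, ((|e r| : ℤ) : ℝ) * f r = ∑ r ∈ e.support, ((|e r| : ℤ) : ℝ) :=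
      Finset.sum_congr rfl fun r hr => by rw [hT r hr, mul_one]
    rw [Int.cast_sub, ← hz, Int.cast_sum, h7]
    ring

theorem nn_slices {m l : ℕ} (hm : 2 ≤ m) (hl : l.Prime) {f : ℕ → ℝ} (hf : Rel m f) :
    ∃ (s : ℕ) (ι ψ : ℕ → ℕ),
      (∀ w : ℕ → ℝ, (l ∣ m ∨ ∑ j ∈ range l, w j = 0) →
        Rel (l * m) fun n => f (ψ n) * w (ι n)) ∧
      ∀ n, ι (l * n) = 0 ∧ ι (l * n + s) = 1 ∧ f (ψ (l * n)) = f n ∧ f (ψ (l * n + s)) = f n := by
  have hl0 : 0 < l := hl.pos
  by_cases hlk : l ∣ m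
  · refine ⟨1, fun n => n % l, fun n => n / l, fun w _ p hp hpk j => ?_, fun n => ?_⟩
    · have hpk' : p ∣ m := by
        rcases (Nat.Prime.dvd_mul hp).mp hpk with h | h
        · rw [(Nat.prime_dvd_prime_iff_eq hp hl).mp h]; exact hlk
        · exact h
      rw [Nat.mul_div_assoc l hpk']
      have h3 : ∀ i : ℕ, j + i * (l * (m / p)) = j + l * (i * (m / p)) := fun i => by ring
      simp only [h3, Nat.add_mul_mod_self_left, Nat.add_mul_div_left _ _ hl0]
      rw [← Finset.sum_mul, hf p hp hpk', zero_mul]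
    · refine ⟨Nat.mul_mod_right _ _, ?_, by simp only [Nat.mul_div_cancel_left _ hl0], ?_⟩
      · show (l * n + 1) % l = 1
        rw [Nat.mul_add_mod, Nat.mod_eq_of_lt hl.one_lt]
      · show f ((l * n + 1) / l) = f n
        rw [Nat.mul_add_div hl0, Nat.div_eq_of_lt hl.one_lt, add_zero]
  · have hcop : Nat.Coprime l m := (Nat.Prime.coprime_iff_not_dvd hl).mpr hlk
    obtain ⟨u, -, hu⟩ := Nat.exists_mul_mod_eq_one_of_coprime hcop (by omega)
    obtain ⟨v, -, hv⟩ := Nat.exists_mul_mod_eq_one_of_coprime hcop.symm hl.one_lt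
    have hper := hf.periodic hm
    have hfu : ∀ x y : ℕ, f (x + l * u * y) = f (x + y) := by
      intro x y
      rw [← hper.map_mod_nat (x + l * u * y), ← hper.map_mod_nat (x + y)]
      congr 1
      have h1 : l * u * y % m = y % m := by rw [Nat.mul_mod, hu, one_mul, Nat.mod_mod]
      rw [Nat.add_mod, h1, ← Nat.add_mod]
    have hfm : ∀ x y : ℕ, f (x + m * y) = f x := by
      intro x y
      rw [← hper.map_mod_nat (x + m * y), ← hper.map_mod_nat x, Nat.add_mul_mod_self_left]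
    refine ⟨m, fun n => v * n % l, fun n => u * n, fun w hw p hp hpk j => ?_, fun n => ?_⟩
    · have hsum := hw.resolve_left hlk
      rcases (Nat.Prime.dvd_mul hp).mp hpk with h1 | h1
      · have h2 : p = l := (Nat.prime_dvd_prime_iff_eq hp hl).mp h1
        subst h2
        rw [Nat.mul_div_cancel_left _ hl0]
        have h3 : ∀ i : ℕ, f (u * (j + i * m)) * w (v * (j + i * m) % p) =
            f (u * j) * w ((v * j + i) % p) := by
          intro i
          rw [coord_eq hv, show u * (j + i * m) = u * j + m * (u * i) by ring, hfm]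
        simp only [h3]
        rw [← Finset.mul_sum, sum_shift, hsum, mul_zero]
      · rw [Nat.mul_div_assoc l h1]
        have h3 : ∀ i : ℕ, f (u * (j + i * (l * (m / p)))) * w (v * (j + i * (l * (m / p))) % l) =
            f (u * j + i * (m / p)) * w (v * j % l) := by
          intro i
          have h4 : u * (j + i * (l * (m / p))) = u * j + l * u * (i * (m / p)) := by ring
          have h5 : v * (j + i * (l * (m / p))) = v * j + l * (v * i * (m / p)) := by ring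
          rw [h4, hfu, h5, Nat.add_mul_mod_self_left]
        simp only [h3]
        rw [← Finset.sum_mul, hf p hp h1, zero_mul]
    · refine ⟨?_, ?_, ?_, ?_⟩
      · show v * (l * n) % l = 0
        rw [mul_left_comm, Nat.mul_mod_right]
      · show v * (l * n + m) % l = 1
        rw [show v * (l * n + m) = m * v + l * (v * n) by ring, Nat.add_mul_mod_self_left, hv]
      · show f (u * (l * n)) = f n
        rw [show u * (l * n) = 0 + l * u * n by ring, hfu, zero_add]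
      · show f (u * (l * n + m)) = f n
        rw [show u * (l * n + m) = (0 + l * u * n) + m * u by ring, hfm, hfu, zero_add]

theorem nn_pair {m l : ℕ} (hm : 2 ≤ m) (hl : l.Prime) (hc : l ∣ m ∨ 5 ≤ l) {f : ℕ → ℝ}
    (hf : Rel m f) (hb : ∀ n, |f n| ≤ 1) :
    ∃ (s : ℕ) (F G : ℕ → ℝ), Rel (l * m) F ∧ Rel (l * m) G ∧
      (∀ n, F (l * n) = f n ∧ F (l * n + s) = f n ∧ G (l * n) = f n ∧ G (l * n + s) = 0) ∧
      ∀ j, F j ≤ 1 ∧ (F j = 1 → ∃ z : ℤ, G j = z) := by
  obtain ⟨s, ι, ψ, h1, h2⟩ := nn_slices hm hl hf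
  obtain ⟨t, ht, hw⟩ : ∃ t : ℝ, |2 * t| < 1 ∧ (l ∣ m ∨ 1 + ((l - 2 : ℕ) : ℝ) * t = 0) := by
    rcases hc with h | h
    · exact ⟨0, by simp, Or.inl h⟩
    · have h3 : (3 : ℝ) ≤ ((l - 2 : ℕ) : ℝ) := by exact_mod_cast (by omega : 3 ≤ l - 2)
      refine ⟨-(1 / ((l - 2 : ℕ) : ℝ)), ?_, Or.inr (by field_simp; ring)⟩
      have h4 : 1 / ((l - 2 : ℕ) : ℝ) ≤ 1 / 3 := one_div_le_one_div_of_le (by norm_num) h3
      have h5 : 0 ≤ 1 / ((l - 2 : ℕ) : ℝ) := by positivity
      rw [abs_lt]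
      constructor <;> linarith
  have hsum : ∀ a b c : ℝ, ∑ j ∈ range l, (if j = 0 then a else if j = 1 then b else c) =
      a + b + ((l - 2 : ℕ) : ℝ) * c := by
    intro a b c
    obtain ⟨l', rfl⟩ : ∃ l', l = l' + 2 := ⟨l - 2, by have := hl.two_le; omega⟩
    rw [Finset.sum_range_succ', Finset.sum_range_succ']
    simp
    ring
  refine ⟨s, _, _, h1 (fun j => if j = 0 then 1 else if j = 1 then 1 else 2 * t)
      (hw.imp_right fun h => by rw [hsum]; linarith),
    h1 (fun j => if j = 0 then 1 else if j = 1 then 0 else t)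
      (hw.imp_right fun h => by rw [hsum]; linarith), fun n => ?_, fun j => ?_⟩
  · obtain ⟨a1, a2, a3, a4⟩ := h2 n
    simp [a1, a2, a3, a4]
  · have h3 := abs_le.mp (hb (ψ j))
    have h4 : f (ψ j) * (2 * t) < 1 := by
      refine (le_abs_self _).trans_lt ?_
      rw [abs_mul]
      exact (mul_le_of_le_one_left (abs_nonneg _) (hb _)).trans_lt ht
    beta_reduce
    split_ifs
    · exact ⟨by linarith, fun h => ⟨1, by simpa using h⟩⟩
    · exact ⟨by linarith, fun _ => ⟨0, by simp⟩⟩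
    · exact ⟨h4.le, fun h => absurd h h4.ne⟩

end Pool.Agent.Lib.MP_c80912_nt
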