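import Mathlib
import Pool.Agent.Results.MP_c80912_nt.Classification

/-!
The integral points of `N_k` (copy of the first part of the hand-in `NotNormal`, so that the
family result does not import that file).
-/

set_option autoImplicit false

open Polynomial Finset

namespace Pool.Agent.Lib.MP_c80912_nt.NnK

open Pool.Agent.Lib.MP_c80912_nt Pool.Agent.Results.MP_c80912_nt.Classification

/-- Evaluation of a coefficient vector at a complex number. -/
noncomputable def ev (k : ℕ) (w : ℂ) : (Fin (Nat.totient k) → ℝ) →ₗ[ℝ] ℂ where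
  toFun x := ∑ s, (x s : ℂ) * w ^ (s : ℕ)
  map_add' x y := by simp [add_mul, Finset.sum_add_distrib]
  map_smul' a x := by simp [Finset.mul_sum, mul_assoc]

theorem ev_rootVec {k : ℕ} (hk : 0 < k) {w : ℂ} (hw : IsPrimitiveRoot w k) (r : ℕ) :
    ev k w (rootVec k r) = w ^ r := by
  have hm := cyclotomic.monic k ℤ
  have hroot : aeval w (cyclotomic k ℤ) = 0 := by
    rw [cyclotomic_eq_minpoly hw hk]
    exact minpoly.aeval ℤ w
  have hne : cyclotomic k ℤ ≠ 1 := by
    intro h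
    rw [h, map_one] at hroot
    exact one_ne_zero hroot
  have hd : ((X : ℤ[X]) ^ r %ₘ cyclotomic k ℤ).natDegree < Nat.totient k := by
    have h := natDegree_modByMonic_lt ((X : ℤ[X]) ^ r) hm hne
    rwa [natDegree_cyclotomic] at h
  have h1 : aeval w ((X : ℤ[X]) ^ r %ₘ cyclotomic k ℤ) = w ^ r := by
    rw [aeval_modByMonic_eq_self_of_root hroot]
    simp
  rw [← h1, aeval_eq_sum_range' hd, Finset.sum_range]
  show ∑ s : Fin (Nat.totient k), ((rootVec k r s : ℝ) : ℂ) * w ^ (s : ℕ) = _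
  simp [rootVec]

theorem norm_ev_le {k : ℕ} (hk : 0 < k) {w : ℂ} (hw : IsPrimitiveRoot w k)
    {z : Fin (Nat.totient k) → ℝ} (hz : z ∈ cyclopolytope k) : ‖ev k w z‖ ≤ 1 := by
  have hc : Convex ℝ (ev k w ⁻¹' Metric.closedBall (0 : ℂ) 1) :=
    (convex_closedBall (0 : ℂ) 1).linear_preimage _
  have h : z ∈ ev k w ⁻¹' Metric.closedBall (0 : ℂ) 1 := by
    refine convexHull_min ?_ hc hz
    rintro x ⟨r, -, rfl⟩
    simp [ev_rootVec hk hw, hw.norm'_eq_one hk.ne']
  simpa using h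

theorem ev_eq_pow {k : ℕ} (hk : 0 < k) {w : ℂ} (hw : IsPrimitiveRoot w k)
    {z : Fin (Nat.totient k) → ℝ} (hz : z ∈ cyclopolytope k) (h1 : ‖ev k w z‖ = 1) :
    ∃ r : ℕ, ev k w z = w ^ r := by
  by_contra hno
  set u := ev k w z with hu
  have hc : Convex ℝ (ev k w ⁻¹' {v : ℂ | inner ℝ u v < (1 : ℝ)}) :=
    (convex_halfSpace_lt (innerₛₗ ℝ u).isLinear 1).linear_preimage _
  have h : z ∈ ev k w ⁻¹' {v : ℂ | inner ℝ u v < (1 : ℝ)} := by
    refine convexHull_min ?_ hc hz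
    rintro x ⟨r, -, rfl⟩
    show inner ℝ u (ev k w (rootVec k r)) < (1 : ℝ)
    rw [ev_rootVec hk hw]
    have hn : ‖w ^ r‖ = 1 := by simp [hw.norm'_eq_one hk.ne']
    exact (inner_lt_one_iff_real_of_norm_eq_one h1 hn).mpr fun h => hno ⟨r, h⟩
  have h2 : inner ℝ u u < (1 : ℝ) := h
  rw [real_inner_self_eq_norm_sq, h1] at h2
  norm_num at h2

theorem exists_field {k : ℕ} (hk : 0 < k) :
    ∃ (K : Type) (_ : Field K) (_ : NumberField K) (ζ : K), IsPrimitiveRoot ζ k := by
  have : NeZero k := ⟨hk.ne'⟩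
  have : NeZero (k : ℚ) := ⟨by exact_mod_cast hk.ne'⟩
  obtain ⟨ζ, hζ⟩ := (CyclotomicField.isCyclotomicExtension k ℚ).exists_isPrimitiveRoot
    (Set.mem_singleton k) hk.ne'
  exact ⟨CyclotomicField k ℚ, inferInstance, inferInstance, ζ, hζ⟩

/-- The integral points of `N_k` are the origin and the vectors `a^(r)` (Kronecker). -/
theorem lattice_point {k : ℕ} (hk : 0 < k) {z : Fin (Nat.totient k) → ℝ}
    (hz : z ∈ cyclopolytope k) (hi : ∀ s, ∃ c : ℤ, z s = c) :
    (∀ y : Fin (Nat.totient k) → ℝ, ∑ s, z s * y s = 0) ∨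
      ∃ r : ℕ, ∀ y : Fin (Nat.totient k) → ℝ, ∑ s, z s * y s = pairing k y (X ^ r) := by
  choose c hc using hi
  obtain ⟨K, _, _, ζ, hζ⟩ := exists_field hk
  have hint : IsIntegral ℤ ζ := hζ.isIntegral hk
  set P : ℤ[X] := ∑ s : Fin (Nat.totient k), C (c s) * X ^ (s : ℕ) with hP
  have hmod : P %ₘ cyclotomic k ℤ = P := by
    rw [modByMonic_eq_self_iff (cyclotomic.monic k ℤ), degree_cyclotomic]
    exact degree_sum_fin_lt c
  have hco : ∀ s : Fin (Nat.totient k), P.coeff s = c s := by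
    intro s
    rw [hP, finsetSum_coeff, Finset.sum_eq_single s]
    · simp
    · intro t _ hts
      rw [coeff_C_mul_X_pow, if_neg fun h => hts (Fin.ext h.symm)]
    · simp
  have hpair : ∀ y, ∑ s, z s * y s = pairing k y P := by
    intro y
    simp only [pairing, hmod, hco, hc]
  have hdvd : ∀ Q : ℤ[X], aeval ζ Q = 0 → ∀ y, pairing k y Q = 0 := by
    intro Q hQ y
    apply pairing_of_dvd
    rw [cyclotomic_eq_minpoly hζ hk]
    exact minpoly.isIntegrallyClosed_dvd hint hQ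
  have hev : ∀ φ : K →+* ℂ, φ (aeval ζ P) = ev k (φ ζ) z := by
    intro φ
    show _ = ∑ s, ((z s : ℝ) : ℂ) * φ ζ ^ (s : ℕ)
    simp [hP, hc]
  by_cases h0 : aeval ζ P = 0
  · exact Or.inl fun y => by rw [hpair, hdvd P h0]
  · right
    have hI : IsIntegral ℤ (aeval ζ P) := by
      rw [hP, map_sum]
      refine IsIntegral.sum _ fun s _ => ?_
      rw [map_mul, map_pow, aeval_C, aeval_X]
      exact isIntegral_algebraMap.mul (hint.pow _)
    obtain ⟨n, hn, hpow⟩ := NumberField.Embeddings.pow_eq_one_of_norm_le_one K ℂ h0 hI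
      fun φ => by rw [hev]; exact norm_ev_le hk (hζ.map_of_injective φ.injective) hz
    obtain ⟨φ⟩ : Nonempty (K →+* ℂ) := inferInstance
    have hw := hζ.map_of_injective φ.injective
    have h1 : ‖ev k (φ ζ) z‖ = 1 := by
      rw [← hev]
      have h2 : ‖φ (aeval ζ P)‖ ^ n = 1 := by rw [← norm_pow, ← map_pow, hpow, map_one, norm_one]
      exact (pow_eq_one_iff_of_nonneg (norm_nonneg _) hn.ne').mp h2
    obtain ⟨r, hr⟩ := ev_eq_pow hk hw hz h1
    refine ⟨r, fun y => ?_⟩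
    have h3 : aeval ζ (P - X ^ r) = 0 := by
      rw [← hev, ← map_pow] at hr
      rw [map_sub, φ.injective hr]
      simp
    have h4 := pairing_add k y (P - X ^ r) (X ^ r)
    rw [sub_add_cancel, hdvd _ h3, zero_add] at h4
    rw [hpair, h4]

end Pool.Agent.Lib.MP_c80912_nt.NnK
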