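import Mathlib
import Pool.Agent.Lib.MP_c80912_nt.NnA
import Pool.Agent.Lib.MP_c80912_nt.NnK

/-!
The cyclopolytope `N_k` is not normal when `k = p q r t` with three odd primes and `t ≥ 3`.
-/

set_option autoImplicit false

open Polynomial Finset

namespace Pool.Agent.Lib.MP_c80912_nt

open Pool.Agent.Results.MP_c80912_nt.Classification

theorem nn_root_mem {k : ℕ} (hk : 2 ≤ k) (j : ℕ) : rootVec k j ∈ cyclopolytope k := by
  have h : rootVec k j = rootVec k (j % k) := by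
    funext s
    have h1 := ((rel_pairing hk (Pi.single s 1)).periodic hk).map_mod_nat j
    simp only [pairing, Pi.single_apply, mul_ite, mul_one, mul_zero, Finset.sum_ite_eq',
      Finset.mem_univ, if_true] at h1
    exact h1.symm
  rw [h]
  exact subset_convexHull ℝ _ ⟨j % k, Nat.mod_lt _ (by omega), rfl⟩

theorem nn_step {k m l : ℕ} (hk : k = l * m) (hm : 2 ≤ m) (hl : l.Prime) (hc : l ∣ m ∨ 5 ≤ l)
    (hbad : Bad m) :
    ∃ (n : ℕ) (x : Fin (Nat.totient k) → ℝ), (∀ s, ∃ c : ℤ, x s = (c : ℝ)) ∧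
      (∃ y ∈ cyclopolytope k, x = (n : ℝ) • y) ∧
      ¬ ∃ z : Fin n → Fin (Nat.totient k) → ℝ,
        (∀ i, z i ∈ cyclopolytope k ∧ ∀ s, ∃ c : ℤ, z i s = (c : ℝ)) ∧ x = ∑ i, z i := by
  subst hk
  have hk : 2 ≤ l * m := hm.trans (Nat.le_mul_of_pos_left m hl.pos)
  obtain ⟨f, hf, hb, N, a, T, c, hN, hT, hrel, hfr⟩ := nn_frac hm hbad
  obtain ⟨s, F, G, hF, hG, hv, hj⟩ := nn_pair hm hl hc hf hb
  obtain ⟨N', rfl⟩ : ∃ N', N = N' + 1 := ⟨N - 1, by omega⟩
  have hN0 : (0 : ℝ) < ((N' + 1 : ℕ) : ℝ) := by positivity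
  have hht : ((N' + 1 : ℕ) : ℝ) * ∑ σ, (a σ : ℝ) * f σ = ((∑ r ∈ T, c r : ℕ) : ℝ) := by
    rw [hrel f hf, Nat.cast_sum]
    exact Finset.sum_congr rfl fun r hr => by rw [hT r hr, mul_one]
  have hn0 : (0 : ℝ) < ((∑ r ∈ T, c r : ℕ) : ℝ) := by
    refine lt_of_le_of_ne (Nat.cast_nonneg _) fun h => hfr ⟨0, ?_⟩
    rw [← h] at hht
    simpa using (mul_eq_zero.mp hht).resolve_left hN0.ne'
  set n : ℕ := ∑ r ∈ T, c r with hn
  set x : Fin (Nat.totient (l * m)) → ℝ := ∑ σ : Fin (Nat.totient m),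
    ((a σ : ℝ) • rootVec (l * m) (l * σ) + ((N' : ℝ) * a σ) • rootVec (l * m) (l * σ + s)) with hx
  have hpair : ∀ y : Fin (Nat.totient (l * m)) → ℝ, ∑ τ, x τ * y τ =
      ∑ σ : Fin (Nat.totient m), (a σ : ℝ) * pairing (l * m) y (X ^ (l * σ)) +
        N' * ∑ σ : Fin (Nat.totient m), (a σ : ℝ) * pairing (l * m) y (X ^ (l * σ + s)) := by
    intro y
    simp only [hx, Finset.sum_apply, Pi.add_apply, Pi.smul_apply, smul_eq_mul, Finset.sum_mul,
      pairing, rootVec, Finset.mul_sum, ← Finset.sum_add_distrib]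
    rw [Finset.sum_comm]
    exact Finset.sum_congr rfl fun σ _ => Finset.sum_congr rfl fun τ _ => by ring
  have hone : ∀ (τ : Fin (Nat.totient (l * m))) (j : ℕ),
      pairing (l * m) (Pi.single τ 1) (X ^ j) = rootVec (l * m) j τ := by
    intro τ j
    simp [pairing, Pi.single_apply, rootVec]
  refine ⟨n, x, fun τ => ?_, ⟨∑ r ∈ T, ((c r : ℝ) / n) •
    ((1 / ((N' + 1 : ℕ) : ℝ)) • rootVec (l * m) (l * r) +
      ((N' : ℝ) / ((N' + 1 : ℕ) : ℝ)) • rootVec (l * m) (l * r + s)), ?_, ?_⟩, ?_⟩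
  · refine ⟨∑ σ : Fin (Nat.totient m),
      (a σ * ((X : ℤ[X]) ^ (l * σ) %ₘ cyclotomic (l * m) ℤ).coeff τ +
        N' * a σ * ((X : ℤ[X]) ^ (l * σ + s) %ₘ cyclotomic (l * m) ℤ).coeff τ), ?_⟩
    simp [hx, rootVec]
  · refine (convex_convexHull ℝ _).sum_mem (fun _ _ => by positivity) ?_ fun r _ => ?_
    · rw [← Finset.sum_div, ← Nat.cast_sum, div_self hn0.ne']
    · refine (convex_convexHull ℝ _) (nn_root_mem hk _) (nn_root_mem hk _) (by positivity)
        (by positivity) ?_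
      rw [← add_div, div_eq_one_iff_eq hN0.ne']
      push_cast
      ring
  · funext τ
    have h0 := rel_pairing hk (Pi.single τ 1)
    have h1 := hrel _ (rel_restrict h0)
    have h2 := hrel (fun j => pairing (l * m) (Pi.single τ 1) (X ^ (l * j + s)))
      (rel_restrict (g := fun j => pairing (l * m) (Pi.single τ 1) (X ^ (j + s)))
        fun p hp hpk j => by simpa only [add_right_comm] using h0 p hp hpk (j + s))
    have h3 := hpair (Pi.single τ 1)
    simp only [hone] at h1 h2 h3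
    have h4 : ∑ τ', x τ' * (Pi.single τ 1 : Fin (Nat.totient (l * m)) → ℝ) τ' = x τ := by
      simp [Pi.single_apply]
    rw [h4] at h3
    apply mul_left_cancel₀ hN0.ne'
    rw [h3, mul_add, h1, mul_left_comm, h2]
    simp only [Finset.sum_apply, Pi.add_apply, Pi.smul_apply, smul_eq_mul, Finset.mul_sum,
      ← Finset.sum_add_distrib]
    refine Finset.sum_congr rfl fun r _ => ?_
    field_simp
  · rintro ⟨z, hz, hxz⟩
    have key : ∀ i, ∑ τ, z i τ * F τ ≤ 1 ∧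
        (∑ τ, z i τ * F τ = 1 → ∃ b : ℤ, ∑ τ, z i τ * G τ = b) := by
      intro i
      rcases NnK.lattice_point (by omega) (hz i).1 (hz i).2 with h | ⟨r, h⟩
      · rw [h fun τ => F τ, h fun τ => G τ]
        exact ⟨zero_le_one, fun _ => ⟨0, by simp⟩⟩
      · rw [h fun τ => F τ, h fun τ => G τ, pairing_of_rel hk hF, pairing_of_rel hk hG]
        exact hj r
    have hs : ∀ y : Fin (Nat.totient (l * m)) → ℝ, ∑ i, ∑ τ, z i τ * y τ = ∑ τ, x τ * y τ := by
      intro y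
      rw [hxz, Finset.sum_comm]
      simp only [Finset.sum_apply, Finset.sum_mul]
    have hA := (hs fun τ => F τ).trans (hpair fun τ => F τ)
    have hB := (hs fun τ => G τ).trans (hpair fun τ => G τ)
    simp only [pairing_of_rel hk hF, pairing_of_rel hk hG, (hv _).1, (hv _).2.1, (hv _).2.2.1,
      (hv _).2.2.2, mul_zero, Finset.sum_const_zero, add_zero] at hA hB
    have h3 : ∀ i ∈ (univ : Finset (Fin n)), ∑ τ, z i τ * F τ = 1 :=
      (Finset.sum_eq_sum_iff_of_le fun i _ => (key i).1).mp (by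
        rw [hA, Finset.sum_const, Finset.card_univ, Fintype.card_fin, nsmul_eq_mul, mul_one, ← hht]
        push_cast
        ring)
    choose b hb' using fun i => (key i).2 (h3 i (Finset.mem_univ i))
    refine hfr ⟨∑ i, b i, ?_⟩
    rw [← hB, Int.cast_sum]
    exact Finset.sum_congr rfl fun i _ => hb' i

theorem nn_main (p q r t : ℕ) (hp : p.Prime) (hq : q.Prime) (hr : r.Prime) (hp2 : p ≠ 2)
    (hq2 : q ≠ 2) (hr2 : r ≠ 2) (hpq : p ≠ q) (hpr : p ≠ r) (hqr : q ≠ r) (ht : 3 ≤ t) :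
    ∃ (n : ℕ) (x : Fin (Nat.totient (p * q * r * t)) → ℝ), (∀ s, ∃ c : ℤ, x s = (c : ℝ)) ∧
      (∃ y ∈ cyclopolytope (p * q * r * t), x = (n : ℝ) • y) ∧
      ¬ ∃ z : Fin n → Fin (Nat.totient (p * q * r * t)) → ℝ,
        (∀ i, z i ∈ cyclopolytope (p * q * r * t) ∧ ∀ s, ∃ c : ℤ, z i s = (c : ℝ)) ∧
          x = ∑ i, z i := by
  have five : ∀ l : ℕ, l.Prime → l ≠ 2 → l ≠ 3 → 5 ≤ l := fun l hl h2 h3 =>
    hl.five_le_of_ne_two_of_ne_three h2 h3
  have main : ∀ l u : ℕ, l.Prime → t = l * u → (l ∣ p * q * r * u ∨ 5 ≤ l) →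
      ∃ l m : ℕ, p * q * r * t = l * m ∧ 2 ≤ m ∧ l.Prime ∧ (l ∣ m ∨ 5 ≤ l) ∧ Bad m := by
    intro l u hl hu hc
    have hu0 : 0 < u := Nat.pos_of_ne_zero fun h => by rw [h, mul_zero] at hu; omega
    have h0 : 0 < p * q * r * u := by have := hp.pos; have := hq.pos; have := hr.pos; positivity
    have d1 : p ∣ p * q * r * u := ⟨q * r * u, by ring⟩
    exact ⟨l, p * q * r * u, by rw [hu]; ring, hp.two_le.trans (Nat.le_of_dvd h0 d1), hl, hc,
      bad_of_three h0.ne' hp hq hr hp2 hq2 hr2 hpq hpr hqr d1 ⟨p * r * u, by ring⟩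
        ⟨p * q * u, by ring⟩⟩
  have hex : ∃ l m : ℕ, p * q * r * t = l * m ∧ 2 ≤ m ∧ l.Prime ∧ (l ∣ m ∨ 5 ≤ l) ∧ Bad m := by
    rcases Nat.four_dvd_or_exists_odd_prime_and_dvd_of_two_lt (by omega : 2 < t) with
      ⟨u, hu⟩ | ⟨l, hl, ⟨u, hu⟩, hodd⟩
    · exact main 2 (2 * u) Nat.prime_two (by omega) (Or.inl ⟨p * q * r * u, by ring⟩)
    · have hl2 : l ≠ 2 := by rintro rfl; exact absurd hodd (by decide)
      by_cases hl3 : l = 3
      · subst hl3
        by_cases h1 : p = 3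
        · exact main 3 u hl hu (Or.inl ⟨q * r * u, by rw [h1]; ring⟩)
        by_cases h2 : q = 3
        · exact main 3 u hl hu (Or.inl ⟨p * r * u, by rw [h2]; ring⟩)
        by_cases h3 : r = 3
        · exact main 3 u hl hu (Or.inl ⟨p * q * u, by rw [h3]; ring⟩)
        have h0 : 0 < q * r * t := by
          have := hq.pos; have := hr.pos; have : 0 < t := by omega
          positivity
        have d1 : q ∣ q * r * t := ⟨r * t, by ring⟩
        exact ⟨p, q * r * t, by ring, hq.two_le.trans (Nat.le_of_dvd h0 d1), hp,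
          Or.inr (five p hp hp2 h1), bad_of_three h0.ne' hl hq hr hl2 hq2 hr2 (Ne.symm h2)
            (Ne.symm h3) hqr ⟨q * r * u, by rw [hu]; ring⟩ d1 ⟨q * t, by ring⟩⟩
      · exact main l u hl hu (Or.inr (five l hl hl2 hl3))
  obtain ⟨l, m, h1, h2, h3, h4, h5⟩ := hex
  exact nn_step h1 h2 h3 h4 h5

end Pool.Agent.Lib.MP_c80912_nt
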