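import Pool.Agent.Lib.MP_c80912_nt.Bad

set_option autoImplicit false

/-! With at most two odd primes, a non-integral solution can be perturbed on its non-integral entries. -/

namespace Pool.Agent.Lib.MP_c80912_nt

open Finset

theorem two_mul_card_image (N : Finset ℕ) (a : ℕ → ℕ)
    (ha : ∀ x ∈ N, ∃ y ∈ N, y ≠ x ∧ a y = a x) : 2 * (N.image a).card ≤ N.card := by
  refine Finset.mul_card_image_le_card N 2 fun t ht => ?_
  obtain ⟨x, hx, rfl⟩ := Finset.mem_image.mp ht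
  obtain ⟨y, hy, hyx, hya⟩ := ha x hx
  exact Finset.one_lt_card.mpr ⟨y, Finset.mem_filter.mpr ⟨hy, hya⟩, x,
    Finset.mem_filter.mpr ⟨hx, rfl⟩, hyx⟩

theorem two_part (N : Finset ℕ) (hN : N.Nonempty) (a b : ℕ → ℕ)
    (ha : ∀ x ∈ N, ∃ y ∈ N, y ≠ x ∧ a y = a x) (hb : ∀ x ∈ N, ∃ y ∈ N, y ≠ x ∧ b y = b x) :
    ∃ δ : ℕ → ℝ, (∃ x, δ x ≠ 0) ∧ (∀ x, δ x ≠ 0 → x ∈ N) ∧
      (∀ t, ∑ x ∈ N with a x = t, δ x = 0) ∧ (∀ t, ∑ x ∈ N with b x = t, δ x = 0) := by
  obtain ⟨x0, hx0⟩ := hN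
  have hA := two_mul_card_image N a ha
  have hB := two_mul_card_image N b hb
  have ht0 : b x0 ∈ N.image b := Finset.mem_image_of_mem b hx0
  let L : (N → ℝ) →ₗ[ℝ] ((N.image a) → ℝ) × (((N.image b).erase (b x0)) → ℝ) :=
    LinearMap.prod
      (LinearMap.pi fun t => ∑ x : N, if a x = t then LinearMap.proj x else 0)
      (LinearMap.pi fun t => ∑ x : N, if b x = t then LinearMap.proj x else 0)
  have hker : LinearMap.ker L ≠ ⊥ := by
    refine LinearMap.ker_ne_bot_of_finrank_lt ?_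
    have hpos : 0 < (N.image b).card := Finset.card_pos.mpr ⟨_, ht0⟩
    simp only [Module.finrank_prod, Module.finrank_fintype_fun_eq_card, Fintype.card_coe,
      Finset.card_erase_of_mem ht0]
    omega
  obtain ⟨d, hd, hd0⟩ := (Submodule.ne_bot_iff _).mp hker
  have hL := LinearMap.mem_ker.mp hd
  set δ : ℕ → ℝ := fun x => if h : x ∈ N then d ⟨x, h⟩ else 0 with hδ
  have hsum : ∀ (c : ℕ → ℕ) (t : ℕ), ∑ x ∈ N with c x = t, δ x =
      (∑ x : N, if c x = t then (LinearMap.proj x : (N → ℝ) →ₗ[ℝ] ℝ) else 0) d := by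
    intro c t
    rw [Finset.sum_filter, ← Finset.sum_coe_sort N, LinearMap.sum_apply]
    refine Finset.sum_congr rfl fun x _ => ?_
    by_cases h : c x = t
    · simp [h, hδ]
    · simp [h]
  have hempty : ∀ (c : ℕ → ℕ) (t : ℕ), t ∉ N.image c → ∑ x ∈ N with c x = t, δ x = 0 := by
    intro c t ht
    refine Finset.sum_eq_zero fun x hx => ?_
    obtain ⟨h1, h2⟩ := Finset.mem_filter.mp hx
    exact absurd (Finset.mem_image.mpr ⟨x, h1, h2⟩) ht
  have h1 : ∀ t, ∑ x ∈ N with a x = t, δ x = 0 := by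
    intro t
    by_cases ht : t ∈ N.image a
    · rw [hsum]
      exact congrFun (congrArg Prod.fst hL) ⟨t, ht⟩
    · exact hempty a t ht
  have h2 : ∀ t, t ≠ b x0 → ∑ x ∈ N with b x = t, δ x = 0 := by
    intro t htne
    by_cases ht : t ∈ N.image b
    · rw [hsum]
      exact congrFun (congrArg Prod.snd hL) ⟨t, Finset.mem_erase.mpr ⟨htne, ht⟩⟩
    · exact hempty b t ht
  have htot : ∑ x ∈ N, δ x = 0 := by
    rw [← Finset.sum_fiberwise_of_maps_to (s := N) (t := N.image a) (g := a)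
      fun x hx => Finset.mem_image_of_mem a hx]
    exact Finset.sum_eq_zero fun t _ => h1 t
  refine ⟨δ, ?_, ?_, h1, ?_⟩
  · by_contra hcon
    push Not at hcon
    apply hd0
    funext x
    have := hcon x
    simpa [hδ] using this
  · intro x hx
    by_contra h
    exact hx (by simp [hδ, h])
  · intro t
    by_cases ht : t = b x0
    · rw [← Finset.sum_fiberwise_of_maps_to (s := N) (t := N.image b) (g := b)
        fun x hx => Finset.mem_image_of_mem b hx, ← Finset.add_sum_erase _ _ ht0,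
        Finset.sum_eq_zero fun t ht => h2 t (Finset.mem_erase.mp ht).1, add_zero] at htot
      rw [ht]; exact htot
    · exact h2 t ht

theorem exists_delta (O : Finset ℕ) (hO : O.card ≤ 2) (c : ℕ → ℕ → ℕ) (N : Finset ℕ)
    (hN : N.Nonempty) (h : ∀ p ∈ O, ∀ x ∈ N, ∃ y ∈ N, y ≠ x ∧ c p y = c p x) :
    ∃ δ : ℕ → ℝ, (∃ x, δ x ≠ 0) ∧ (∀ x, δ x ≠ 0 → x ∈ N) ∧
      ∀ p ∈ O, ∀ t, ∑ x ∈ N with c p x = t, δ x = 0 := by
  rcases O.eq_empty_or_nonempty with h0 | ⟨p, hp⟩
  · obtain ⟨x0, hx0⟩ := hN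
    refine ⟨fun x => if x = x0 then 1 else 0, ⟨x0, by simp⟩, fun x hx => ?_, ?_⟩
    · by_cases h1 : x = x0
      · rw [h1]; exact hx0
      · simp [h1] at hx
    · simp [h0]
  · have : ∃ q ∈ O, ∀ r ∈ O, r = p ∨ r = q := by
      rcases (O.erase p).eq_empty_or_nonempty with h1 | ⟨q, hq⟩
      · refine ⟨p, hp, fun r hr => Or.inl ?_⟩
        by_contra h2
        have h3 : r ∈ O.erase p := Finset.mem_erase.mpr ⟨h2, hr⟩
        rw [h1] at h3
        exact absurd h3 (Finset.notMem_empty r)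
      · refine ⟨q, Finset.mem_of_mem_erase hq, fun r hr => ?_⟩
        by_cases h2 : r = p
        · exact Or.inl h2
        · have h3 : (O.erase p).card ≤ 1 := by rw [Finset.card_erase_of_mem hp]; omega
          exact Or.inr (Finset.card_le_one.mp h3 r (Finset.mem_erase.mpr ⟨h2, hr⟩) q hq)
    obtain ⟨q, hq, hpq⟩ := this
    obtain ⟨δ, h1, h2, h3, h4⟩ := two_part N hN (c p) (c q) (h p hp) (h q hq)
    refine ⟨δ, h1, h2, fun r hr => ?_⟩
    rcases hpq r hr with rfl | rfl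
    · exact h3
    · exact h4

theorem line_sum {p d : ℕ} (hd : 0 < d) (φ : ℕ → ℝ) (m : ℕ) :
    ∑ i ∈ range p, φ ((m + i * d) % (p * d)) = ∑ x ∈ range (p * d) with x % d = m % d, φ x := by
  have h1 : ∀ i, (m + i * d) % (p * d) = m % d + d * ((m / d + i) % p) := by
    intro i
    rw [mul_comm p d, Nat.mod_mul, Nat.add_mul_mod_self_right, Nat.add_mul_div_right _ _ hd]
  simp only [h1]
  rw [sum_shift p (m / d) fun j => φ (m % d + d * j)]
  have hm := Nat.mod_lt m hd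
  refine Finset.sum_bij (fun j _ => m % d + d * j) ?_ ?_ ?_ fun _ _ => rfl
  · intro j hj
    have hj' := Finset.mem_range.mp hj
    refine Finset.mem_filter.mpr ⟨Finset.mem_range.mpr ?_, ?_⟩
    · calc m % d + d * j < d + d * j := by omega
        _ = (j + 1) * d := by ring
        _ ≤ p * d := Nat.mul_le_mul_right d hj'
    · rw [Nat.add_mul_mod_self_left, Nat.mod_mod]
  · intro j _ j' _ h
    have h2 : d * j = d * j' := by omega
    exact Nat.eq_of_mul_eq_mul_left hd h2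
  · intro x hx
    obtain ⟨h2, h3⟩ := Finset.mem_filter.mp hx
    refine ⟨x / d, Finset.mem_range.mpr ?_, ?_⟩
    · exact (Nat.div_lt_iff_lt_mul hd).mpr (Finset.mem_range.mp h2)
    · rw [← h3]; exact Nat.mod_add_div x d

theorem line_sum' {k p : ℕ} (hk : 2 ≤ k) (hpk : p ∣ k) (φ : ℕ → ℝ) (m : ℕ) :
    ∑ i ∈ range p, φ ((m + i * (k / p)) % k) =
      ∑ x ∈ range k with x % (k / p) = m % (k / p), φ x := by
  have hd : 0 < k / p := Nat.div_pos (Nat.le_of_dvd (by omega) hpk) (Nat.pos_of_dvd_of_pos hpk (by omega))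
  have h := line_sum (p := p) hd φ m
  rwa [Nat.mul_div_cancel' hpk] at h

theorem exists_partner {k p : ℕ} (hk : 2 ≤ k) (hp : p.Prime) (hpk : p ∣ k) {f : ℕ → ℝ}
    (hf : Rel k f) {x : ℕ} (hx : x < k) (hn : ∀ z : ℤ, f x ≠ z) :
    ∃ y, y < k ∧ y ≠ x ∧ y % (k / p) = x % (k / p) ∧ ∀ z : ℤ, f y ≠ z := by
  by_contra hcon
  push Not at hcon
  have h1 := line_sum' hk hpk f x
  simp only [(hf.periodic hk).map_mod_nat] at h1
  rw [hf p hp hpk x] at h1
  have hxm : x ∈ (range k).filter fun y => y % (k / p) = x % (k / p) :=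
    Finset.mem_filter.mpr ⟨Finset.mem_range.mpr hx, rfl⟩
  rw [← Finset.add_sum_erase _ _ hxm] at h1
  have h2 : ∀ y, ∃ z : ℤ, y ∈ ((range k).filter fun y => y % (k / p) = x % (k / p)).erase x →
      f y = z := by
    intro y
    by_cases hy : y ∈ ((range k).filter fun y => y % (k / p) = x % (k / p)).erase x
    · obtain ⟨h3, h4⟩ := Finset.mem_erase.mp hy
      obtain ⟨h5, h6⟩ := Finset.mem_filter.mp h4
      obtain ⟨z, hz⟩ := hcon y (Finset.mem_range.mp h5) h3 h6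
      exact ⟨z, fun _ => hz⟩
    · exact ⟨0, fun h => absurd h hy⟩
  choose zf hzf using h2
  rw [Finset.sum_congr rfl hzf] at h1
  apply hn (-∑ y ∈ ((range k).filter fun y => y % (k / p) = x % (k / p)).erase x, zf y)
  push_cast
  linarith

open Classical in
theorem exists_delta' {k : ℕ} (hk : 2 ≤ k) (hO : (k.primeFactors.erase 2).card ≤ 2) {f : ℕ → ℝ}
    (hf : Rel k f) (T : ℕ → Prop)
    (hT : ∀ p, p.Prime → p ∣ k → p ≠ 2 → ∀ x y, y % (k / p) = x % (k / p) → T x → T y)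
    (hn : ∃ n, n < k ∧ T n ∧ ∀ z : ℤ, f n ≠ z) :
    ∃ δ : ℕ → ℝ, (∃ x, δ x ≠ 0) ∧ (∀ x, δ x ≠ 0 → x < k ∧ T x ∧ ∀ z : ℤ, f x ≠ z) ∧
      ∀ p, p.Prime → p ∣ k → p ≠ 2 → ∀ m, ∑ i ∈ range p, δ ((m + i * (k / p)) % k) = 0 := by
  obtain ⟨n, hn1, hn2, hn3⟩ := hn
  obtain ⟨δ, h1, h2, h3⟩ := exists_delta (k.primeFactors.erase 2) hO (fun p x => x % (k / p))
    ((range k).filter fun x => T x ∧ ∀ z : ℤ, f x ≠ z)
    ⟨n, Finset.mem_filter.mpr ⟨Finset.mem_range.mpr hn1, hn2, hn3⟩⟩ (by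
      intro p hp x hx
      obtain ⟨hp2, hp3⟩ := Finset.mem_erase.mp hp
      obtain ⟨hx1, hx2, hx3⟩ := Finset.mem_filter.mp hx
      have hpp := Nat.prime_of_mem_primeFactors hp3
      have hpk := Nat.dvd_of_mem_primeFactors hp3
      obtain ⟨y, hy1, hy2, hy3, hy4⟩ := exists_partner hk hpp hpk hf (Finset.mem_range.mp hx1) hx3
      exact ⟨y, Finset.mem_filter.mpr ⟨Finset.mem_range.mpr hy1, hT p hpp hpk hp2 x y hy3 hx2, hy4⟩,
        hy2, hy3⟩)
  refine ⟨δ, h1, fun x hx => ?_, fun p hp hpk hp2 m => ?_⟩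
  · obtain ⟨h4, h5⟩ := Finset.mem_filter.mp (h2 x hx)
    exact ⟨Finset.mem_range.mp h4, h5⟩
  · rw [line_sum' hk hpk δ m, ← h3 p (Finset.mem_erase.mpr ⟨hp2,
      Nat.mem_primeFactors.mpr ⟨hp, hpk, by omega⟩⟩) (m % (k / p))]
    symm
    refine Finset.sum_subset (fun x hx => ?_) fun x hx hx' => ?_
    · obtain ⟨h4, h5⟩ := Finset.mem_filter.mp hx
      exact Finset.mem_filter.mpr ⟨(Finset.mem_filter.mp h4).1, h5⟩
    · by_contra h4
      exact hx' (Finset.mem_filter.mpr ⟨h2 x h4, (Finset.mem_filter.mp hx).2⟩)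

theorem exists_perturb {k : ℕ} (hk : 2 ≤ k) (hO : (k.primeFactors.erase 2).card ≤ 2) {f : ℕ → ℝ}
    (hf : Rel k f) (hn : ∃ n, ∀ z : ℤ, f n ≠ z) :
    ∃ δ : ℕ → ℝ, Rel k δ ∧ (∃ n, δ n ≠ 0) ∧ ∀ n, δ n ≠ 0 → ∀ z : ℤ, f n ≠ z := by
  have hper := hf.periodic hk
  have hk0 : 0 < k := by omega
  obtain ⟨n, hn⟩ := hn
  by_cases h2 : 2 ∣ k
  · obtain ⟨e, o, ho, hko⟩ := Nat.exists_eq_two_pow_mul_odd (n := k) (by omega)
    obtain ⟨e', rfl⟩ : ∃ e', e = e' + 1 := by
      rcases e with _ | e'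
      · rw [pow_zero, one_mul] at hko
        rw [hko] at h2
        exact absurd h2 ho.not_two_dvd_nat
      · exact ⟨e', rfl⟩
    set c := 2 ^ e' with hc
    have hc0 : 0 < c := by positivity
    have hk2 : k = 2 * (c * o) := by rw [hko, pow_succ]; ring
    have hh : k / 2 = c * o := by rw [hk2, Nat.mul_div_cancel_left _ (by norm_num)]
    have hneg : ∀ m, f (m + c * o) = -f m := by
      intro m
      have h := hf 2 Nat.prime_two h2 m
      rw [hh, Finset.sum_range_succ, Finset.sum_range_one, zero_mul, add_zero, one_mul] at h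
      linarith
    have hmod : ∀ d x y : ℕ, c * 2 ∣ d → y % d = x % d → y / c % 2 = x / c % 2 := by
      intro d x y hd h
      have h1 : y % (c * 2) = x % (c * 2) := by
        rw [← Nat.mod_mod_of_dvd y hd, h, Nat.mod_mod_of_dvd x hd]
      have h3 : y % c = x % c := by
        rw [← Nat.mod_mod_of_dvd y (Dvd.intro 2 rfl : c ∣ c * 2), h1,
          Nat.mod_mod_of_dvd x (Dvd.intro 2 rfl : c ∣ c * 2)]
      rw [Nat.mod_mul, Nat.mod_mul, h3] at h1
      exact Nat.eq_of_mul_eq_mul_left hc0 (by omega)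
    have hck : c * 2 ∣ k := ⟨o, by rw [hk2]; ring⟩
    have hflip : ∀ x : ℕ, (x + c * o) % k / c % 2 = (x / c + 1) % 2 := by
      intro x
      rw [hmod k (x + c * o) ((x + c * o) % k) hck (Nat.mod_mod _ _), Nat.add_mul_div_left _ _ hc0]
      obtain ⟨t, ht⟩ := ho
      omega
    have hnonint : ∀ x, (∀ z : ℤ, f ((x + c * o) % k) ≠ z) ↔ ∀ z : ℤ, f x ≠ z := by
      intro x
      rw [hper.map_mod_nat, hneg]
      constructor
      · intro h z hz
        exact h (-z) (by rw [hz]; push_cast; ring)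
      · intro h z hz
        exact h (-z) (by push_cast; linarith)
    obtain ⟨δ, ⟨x0, h3⟩, h4, h5⟩ := exists_delta' hk hO hf (fun x => x / c % 2 = 0) (by
      intro p hp hpk hp2 x y hxy hx
      have h6 : c * 2 ∣ k / p := by
        rw [Nat.dvd_div_iff_mul_dvd hpk]
        refine Nat.Coprime.mul_dvd_of_dvd_of_dvd ?_ hpk hck
        rw [hc, ← pow_succ]
        exact Nat.Coprime.pow_right _ ((Nat.coprime_primes hp Nat.prime_two).mpr hp2)
      show y / c % 2 = 0
      rw [hmod _ x y h6 hxy]; exact hx) (by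
      by_cases h6 : n % k / c % 2 = 0
      · exact ⟨n % k, Nat.mod_lt _ hk0, h6, by rw [hper.map_mod_nat]; exact hn⟩
      · refine ⟨(n % k + c * o) % k, Nat.mod_lt _ hk0, ?_, ?_⟩
        · show (n % k + c * o) % k / c % 2 = 0
          rw [hflip]; omega
        · rw [hnonint, hper.map_mod_nat]; exact hn)
    refine ⟨fun m => δ (m % k) - δ ((m + c * o) % k), ?_, ⟨x0, ?_⟩, ?_⟩
    · intro p hp hpk m
      by_cases hp2 : p = 2
      · subst hp2
        rw [hh, Finset.sum_range_succ, Finset.sum_range_one, zero_mul, add_zero, one_mul]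
        have h6 : (m + c * o + c * o) % k = m % k := by
          rw [show m + c * o + c * o = m + k by rw [hk2]; ring, Nat.add_mod_right]
        show δ (m % k) - δ ((m + c * o) % k) + (δ ((m + c * o) % k) - δ ((m + c * o + c * o) % k)) = 0
        rw [h6]; ring
      · rw [Finset.sum_sub_distrib, h5 p hp hpk hp2 m, zero_sub, neg_eq_zero,
          ← h5 p hp hpk hp2 (m + c * o)]
        refine Finset.sum_congr rfl fun i _ => ?_
        congr 2; ring
    · obtain ⟨h6, h7, -⟩ := h4 x0 h3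
      have h8 : δ ((x0 + c * o) % k) = 0 := by
        by_contra h9
        have h10 : (x0 + c * o) % k / c % 2 = 0 := (h4 _ h9).2.1
        have h11 : x0 / c % 2 = 0 := h7
        rw [hflip] at h10
        omega
      show δ (x0 % k) - δ ((x0 + c * o) % k) ≠ 0
      rw [h8, sub_zero, Nat.mod_eq_of_lt h6]
      exact h3
    · intro m hm
      by_cases h6 : δ (m % k) = 0
      · have h7 : δ ((m + c * o) % k) ≠ 0 := fun h8 => hm (by
          show δ (m % k) - δ ((m + c * o) % k) = 0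
          rw [h6, h8, sub_zero])
        exact (hnonint m).mp (h4 _ h7).2.2
      · have h7 := (h4 _ h6).2.2
        rwa [hper.map_mod_nat] at h7
  · obtain ⟨δ, ⟨x0, h3⟩, h4, h5⟩ := exists_delta' hk hO hf (fun _ => True)
      (fun _ _ _ _ _ _ _ _ => trivial)
      ⟨n % k, Nat.mod_lt _ hk0, trivial, by rw [hper.map_mod_nat]; exact hn⟩
    refine ⟨fun m => δ (m % k), ?_, ⟨x0, ?_⟩, ?_⟩
    · intro p hp hpk m
      exact h5 p hp hpk (fun h => h2 (h ▸ hpk)) m
    · show δ (x0 % k) ≠ 0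
      rw [Nat.mod_eq_of_lt (h4 x0 h3).1]; exact h3
    · intro m hm
      have h7 := (h4 _ hm).2.2
      rwa [hper.map_mod_nat] at h7

end Pool.Agent.Lib.MP_c80912_nt
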